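import Pool.Agent.Q67.Det.Defs

/-!
# Derivations of the cohomology of the powers: definitions
-/

open CategoryTheory AlgebraicGeometry

universe u v

namespace Pool.Agent.Q67.TG

open Pool.Agent.H914 Pool.Agent.H914.VarClass Pool.Agent.H914.VarClass.Obj
  Pool.Agent.H914.WeilCohomology Pool.Agent.Y133.Half
open Pool.Agent.Q67.Det (ten)

variable {k : Type u} [Field k] {𝒱 : VarClass k} {ops : CycleOps 𝒱}

/-- The operator `D` on the cohomology of `X^(m+1)` is the derivation given by the operator `A` on
the cohomology of `X`: it sends `x 0 × ... × x m` to `∑ i, x 0 × ... × A (x i) × ... × x m`. -/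
def IsDer (W : WeilCohomology.{u, v} ops) (X : 𝒱.Obj) (A : Module.End W.K (W.H X)) (m : ℕ)
    (D : Module.End W.K (W.H (pw X m))) : Prop :=
  ∀ x : Fin (m + 1) → W.H X,
    D (ten W X m x) = ∑ i, ten W X m (Function.update x i (A (x i)))

end Pool.Agent.Q67.TG
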