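import Pool.Agent.Q67.TG.Kap
import Pool.Agent.Q67.TG.DerDefs
import Pool.Agent.Y133.Half.Growth

/-!
# Bases of the cohomology of the powers and derivations
-/

set_option autoImplicit false
set_option linter.unusedSectionVars false

open CategoryTheory AlgebraicGeometry

universe u v

namespace Pool.Agent.Q67.TG

open Pool.Agent.H914 Pool.Agent.H914.VarClass Pool.Agent.H914.VarClass.Obj
  Pool.Agent.H914.WeilCohomology
open Pool.Agent.Y133.Half hiding prj extOp_xp
open Pool.Agent.Q67.Det Pool.Agent.Q67.TK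

variable {k : Type u} [Field k] {𝒱 : VarClass k} {ops : CycleOps 𝒱}
  {W : WeilCohomology.{u, v} ops} {X Y Z Z' P : 𝒱.Obj}

/-- There is a basis of homogeneous elements. -/
lemma exists_homog_basis (W : WeilCohomology.{u, v} ops) (X : 𝒱.Obj) :
    ∃ (n : ℕ) (v : Module.Basis (Fin n) W.K (W.H X)) (d : Fin n → ℕ), ∀ i, v i ∈ W.gr X (d i) := by
  classical
  set b := (W.isInternal X).collectedBasis fun i => Module.finBasis W.K (W.gr X i) with hb
  have hfin : Finite (Σ i, Fin (Module.finrank W.K (W.gr X i))) := Module.Finite.finite_basis b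
  have hft : Fintype (Σ i, Fin (Module.finrank W.K (W.gr X i))) := Fintype.ofFinite _
  refine ⟨_, b.reindex (Fintype.equivFin _), fun i => ((Fintype.equivFin _).symm i).1, fun i => ?_⟩
  rw [Module.Basis.reindex_apply]
  exact (W.isInternal X).collectedBasis_mem _ _

variable {B : Type} [Fintype B] [DecidableEq B] (v : Module.Basis B W.K (W.H X))

lemma ten_mem_range {m : ℕ} (x : Fin (m + 1) → W.H X) :
    ∃ F, PP v (Det.prj X m) F = ten W X m x := by
  refine ⟨fun I => ∏ i, v.repr (x i) (I i), ?_⟩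
  rw [PP_prj]
  have h1 : x = fun i => ∑ a, v.repr (x i) a • v a := funext fun i => (v.sum_repr (x i)).symm
  conv_rhs => rw [h1, ← tenM_apply, MultilinearMap.map_sum]
  refine Finset.sum_congr rfl fun I _ => ?_
  rw [MultilinearMap.map_smul_univ]
  rfl

/-- The class of a tensor as a linear map. -/
noncomputable def PPL (m : ℕ) : ((Fin (m + 1) → B) → W.K) →ₗ[W.K] W.H (pw X m) where
  toFun := PP v (Det.prj X m)
  map_add' := PP_add _
  map_smul' := PP_smul _

lemma PP_surj {m : ℕ} (c : W.H (pw X m)) : ∃ F, PP v (Det.prj X m) F = c := by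
  have h1 : LinearMap.range (PPL v m) = ⊤ := by
    have h2 : (LinearMap.range (PPL v m)).mkQ = 0 := by
      apply pw_ext
      intro d x _
      obtain ⟨F, hF⟩ := ten_mem_range v x
      rw [LinearMap.zero_apply, Submodule.mkQ_apply, Submodule.Quotient.mk_eq_zero]
      exact ⟨F, hF⟩
    rw [← Submodule.ker_mkQ (LinearMap.range (PPL v m)), h2, LinearMap.ker_zero]
  have h3 : c ∈ LinearMap.range (PPL v m) := by rw [h1]; trivial
  exact h3

lemma PP_inj {m : ℕ} {F G : (Fin (m + 1) → B) → W.K}
    (h : PP v (Det.prj X m) F = PP v (Det.prj X m) G) : F = G := by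
  have h1 : Function.Surjective (PPL v m) := fun c => PP_surj v c
  have h2 : Module.finrank W.K ((Fin (m + 1) → B) → W.K) = Module.finrank W.K (W.H (pw X m)) := by
    rw [Module.finrank_fintype_fun_eq_card, Fintype.card_fun, Fintype.card_fin, finrank_pw,
      Module.finrank_eq_card_basis v]
  exact (LinearMap.injective_iff_surjective_of_finrank_eq_finrank h2).2 h1 h

/-! ### Derivations -/

/-- The derivation given by an operator. -/
noncomputable def derOp (A : Module.End W.K (W.H X)) (m : ℕ) : Module.End W.K (W.H (pw X m)) :=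
  ∑ i : Fin (m + 1), famOp W X m (Function.update (fun _ => 1) i A)

lemma derOp_ten (A : Module.End W.K (W.H X)) {m : ℕ} (x : Fin (m + 1) → W.H X) :
    derOp A m (ten W X m x) = ∑ i, ten W X m (Function.update x i (A (x i))) := by
  rw [derOp, LinearMap.sum_apply]
  refine Finset.sum_congr rfl fun i _ => ?_
  rw [famOp_ten]
  congr 1
  funext l
  by_cases h : l = i
  · subst h; rw [Function.update_self, Function.update_self]
  · rw [Function.update_of_ne h, Function.update_of_ne h]; rfl

lemma derOp_isDer (A : Module.End W.K (W.H X)) (m : ℕ) : IsDer W X A m (derOp A m) :=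
  fun x => derOp_ten A x

lemma IsDer.eq {A : Module.End W.K (W.H X)} {m : ℕ} {D : Module.End W.K (W.H (pw X m))}
    (h : IsDer W X A m D) : D = derOp A m :=
  pw_ext fun _ x _ => (h x).trans (derOp_ten A x).symm

lemma derOp_PP (A : Module.End W.K (W.H X)) {m : ℕ} (F : (Fin (m + 1) → B) → W.K) :
    derOp A m (PP v (Det.prj X m) F) =
      PP v (Det.prj X m) ((dM (m + 1) (mt v A)).mulVec F) := by
  rw [derOp, LinearMap.sum_apply]
  simp only [famOp_PP]
  rw [dM_eq, Matrix.sum_mulVec]
  have h1 : ∀ G : Fin (m + 1) → (Fin (m + 1) → B) → W.K,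
      PP v (Det.prj X m) (∑ i, G i) = ∑ i, PP v (Det.prj X m) (G i) := fun G =>
    map_sum (PPL v m) G Finset.univ
  rw [h1]
  refine Finset.sum_congr rfl fun i _ => ?_
  congr 2
  rw [oM]
  congr 1
  funext l
  by_cases h : l = i
  · subst h; rw [Function.update_self, Function.update_self]
  · rw [Function.update_of_ne h, Function.update_of_ne h, mt_one]

variable {v} {S : Sys W}

lemma mem_Ann_Cs {A : Module.End W.K (W.H X)} : (∀ n, ∀ F ∈ Cs S v n,
    (dM n (mt v A)).mulVec F = 0) ↔ ∀ m, ∀ c ∈ S.C (pw X m), derOp A m c = 0 := by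
  constructor
  · intro h m c hc
    obtain ⟨F, rfl⟩ := PP_surj v c
    rw [derOp_PP, h _ _ (mem_Cs_succ.2 hc), PP_zero]
  · intro h n F hF
    cases n with
    | zero =>
      funext I
      simp [dM_mulVec]
    | succ m =>
      have h1 := h m _ (mem_Cs_succ.1 hF)
      rw [derOp_PP] at h1
      exact PP_inj v (h1.trans (PP_zero _).symm)

lemma mem_four {A : Module.End W.K (W.H X)} {m : ℕ} : (∀ F ∈ Cs S v (m + 1),
    (dM (m + 1) (mt v A)).mulVec F = 0) ↔ ∀ c ∈ S.C (pw X m), derOp A m c = 0 := by
  constructor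
  · intro h c hc
    obtain ⟨F, rfl⟩ := PP_surj v c
    rw [derOp_PP, h _ (mem_Cs_succ.2 hc), PP_zero]
  · intro h F hF
    have h1 := h _ (mem_Cs_succ.1 hF)
    rw [derOp_PP] at h1
    exact PP_inj v (h1.trans (PP_zero _).symm)

/-- dimensions -/
lemma finrank_Cs {m : ℕ} : Module.finrank W.K (Cs S v (m + 1)) =
    Module.finrank W.K (S.C (pw X m)) := by
  have h1 : (Cs S v (m + 1)).map (PPL v m) = S.C (pw X m) := by
    ext c
    constructor
    · rintro ⟨F, hF, rfl⟩
      exact mem_Cs_succ.1 hF
    · intro hc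
      obtain ⟨F, rfl⟩ := PP_surj v c
      exact ⟨F, mem_Cs_succ.2 hc, rfl⟩
  rw [← h1]
  exact (LinearEquiv.finrank_eq (Submodule.equivMapOfInjective (PPL v m)
    (fun F G h => PP_inj v h) _))

end Pool.Agent.Q67.TG
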