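import Pool.Agent.Q67.TG.Pos
import Pool.Agent.Q67.Det.ProjDet

/-!
# Contractions
-/

set_option autoImplicit false
set_option linter.unusedSectionVars false

open CategoryTheory AlgebraicGeometry

universe u v

namespace Pool.Agent.Q67.TG

open Pool.Agent.H914 Pool.Agent.H914.VarClass Pool.Agent.H914.VarClass.Obj
  Pool.Agent.H914.WeilCohomology
open Pool.Agent.Y133.Half hiding prj extOp_xp
open Pool.Agent.Q67.Det Pool.Agent.Q67.TK

variable {k : Type u} [Field k] {𝒱 : VarClass k} {ops : CycleOps 𝒱}
  {W : WeilCohomology.{u, v} ops} {X Y Z Z' P : 𝒱.Obj}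

lemma tr_snd_fst (w : W.H P) (z : W.H Z) :
    W.tr (Z.prod P) (W.map (snd Z P) w * W.map (fst Z P) z) = W.tr Z z * W.tr P w := by
  refine gr_induction (W.isInternal P)
    (p := fun w => W.tr (Z.prod P) (W.map (snd Z P) w * W.map (fst Z P) z) =
      W.tr Z z * W.tr P w) ?_ ?_ w
  · intro i w hw
    refine gr_induction (W.isInternal Z)
      (p := fun z => W.tr (Z.prod P) (W.map (snd Z P) w * W.map (fst Z P) z) =
        W.tr Z z * W.tr P w) ?_ ?_ z
    · intro j z hz
      rw [PH.comm (PH.map (snd Z P) (PH.of hw)) (PH.map (fst Z P) (PH.of hz)), map_smul,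
        W.tr_prod, smul_eq_mul]
      by_cases hi : i % 2 = 1
      · rw [PH.tr_odd (PH.of hw) hi]; ring
      · have : Even (i * j) := (Nat.even_iff.2 (by omega)).mul_right j
        rw [this.neg_one_pow, one_mul]
    · intro a b ha hb
      rw [map_add, mul_add, map_add, ha, hb, map_add]; ring
  · intro a b ha hb
    rw [map_add, add_mul, map_add, ha, hb, map_add]; ring

lemma push_snd_fst (w : W.H P) (y : W.H Z) :
    W.push (fst Z P) (W.map (snd Z P) w * W.map (fst Z P) y) = W.tr P w • y := by
  apply W.tr_ext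
  intro c
  rw [W.tr_push, mul_assoc, ← map_mul, tr_snd_fst, smul_mul_assoc, map_smul, smul_eq_mul, mul_comm]

section Eop

variable [CharZero W.K]

/-- the sign operator -/
noncomputable def Eop (W : WeilCohomology.{u, v} ops) (X : 𝒱.Obj) :
    ∀ m : ℕ, Module.End W.K (W.H (pw X m))
  | 0 => LinearMap.id
  | m + 1 => (extOp W LinearMap.id (LinearMap.id - oddP W X) +
      extOp W (famOp W X m fun _ => LinearMap.id - (2 : W.K) • oddP W X) (oddP W X)) ∘ₗ
        extOp W (Eop W X m) LinearMap.id

lemma Eop_mem (S : Sys W) (hp : oddP W X ∈ S.Op X X) :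
    ∀ m : ℕ, Eop W X m ∈ S.Op (pw X m) (pw X m)
  | 0 => Sys.Op.id
  | m + 1 => by
    refine Sys.Op.comp (Submodule.add_mem _ (Sys.Op.ext Sys.Op.id
      (Submodule.sub_mem _ Sys.Op.id hp)) (Sys.Op.ext (famOp_mem S fun _ =>
        Submodule.sub_mem _ Sys.Op.id (Submodule.smul_mem _ _ hp)) hp))
        (Sys.Op.ext (Eop_mem S hp m) Sys.Op.id)

lemma Eop_ten : ∀ {m : ℕ} {d : Fin (m + 1) → ℕ} {x : Fin (m + 1) → W.H X},
    (∀ i, x i ∈ PH W X (d i)) →
    Eop W X m (ten W X m x) = (-1 : W.K) ^ (sgT m d d) • ten W X m x := by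
  intro m
  induction m with
  | zero => intro d x _; rw [sgT, pow_zero, one_smul]; rfl
  | succ m ih =>
    intro d x hx
    have hi := ih (d := Fin.init d) (x := Fin.init x) fun i => hx _
    have h1 : Eop W X (m + 1) (ten W X (m + 1) x) =
        ((extOp W LinearMap.id (LinearMap.id - oddP W X) +
          extOp W (famOp W X m fun _ => LinearMap.id - (2 : W.K) • oddP W X) (oddP W X) :
            Module.End W.K (W.H ((pw X m).prod X))))
          (extOp W (Eop W X m) LinearMap.id (xp W (ten W X m (Fin.init x))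
            (x (Fin.last (m + 1))))) := rfl
    rw [h1, extOp_xp, hi, xp_smul_left, map_smul, LinearMap.add_apply, LinearMap.id_apply,
      extOp_xp, extOp_xp, LinearMap.id_apply, sgT, pow_add, mul_comm, mul_smul]
    congr 1
    have hl : oddP W X (x (Fin.last (m + 1))) =
        if d (Fin.last (m + 1)) % 2 = 1 then x (Fin.last (m + 1)) else 0 :=
      oddP_apply (hx (Fin.last (m + 1)))
    have hs : famOp W X m (fun _ => LinearMap.id - (2 : W.K) • oddP W X)
        (ten W X m (Fin.init x)) =
        (-1 : W.K) ^ (∑ i : Fin (m + 1), d i.castSucc) • ten W X m (Fin.init x) := by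
      rw [famOp_ten]
      have h2 : (fun i : Fin (m + 1) => (LinearMap.id - (2 : W.K) • oddP W X :
          Module.End W.K (W.H X)) (Fin.init x i)) =
          fun i => ((-1 : W.K) ^ d i.castSucc) • Fin.init x i := by
        funext i
        have h3 : oddP W X (Fin.init x i) = if d i.castSucc % 2 = 1 then Fin.init x i else 0 :=
          oddP_apply (hx i.castSucc)
        rw [LinearMap.sub_apply, LinearMap.smul_apply, h3]
        split_ifs with h
        · rw [Odd.neg_one_pow (Nat.odd_iff.2 h), LinearMap.id_apply, two_smul]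
          simp [Fin.init]
        · rw [Even.neg_one_pow (Nat.even_iff.2 (by omega)), LinearMap.id_apply]
          simp [Fin.init]
      rw [h2, ← tenM_apply, MultilinearMap.map_smul_univ, Finset.prod_pow_eq_pow_sum]
      rfl
    rw [hs, LinearMap.sub_apply, hl, LinearMap.id_apply]
    split_ifs with h
    · rw [sub_self]
      have e1 : xp W (ten W X m (Fin.init x)) (0 : W.H X) = 0 := by
        rw [xp, map_zero, mul_zero]
      rw [e1, zero_add, xp_smul_left]
      congr 1
      apply neg_pow_congr
      rw [Nat.mul_mod, h, one_mul, Nat.mod_mod]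
    · rw [sub_zero]
      have e1 : ∀ a : W.H (pw X m), xp W a (0 : W.H X) = 0 := fun a => by
        rw [xp, map_zero, mul_zero]
      rw [e1, add_zero]
      have : Even (d (Fin.last (m + 1)) * ∑ i : Fin (m + 1), d i.castSucc) :=
        (Nat.even_iff.2 (by omega)).mul_right _
      rw [this.neg_one_pow, one_smul]
      rfl

/-- The complete contraction of external products, without signs. -/
lemma tr_Eop_ten {m : ℕ} {d d' : Fin (m + 1) → ℕ} {x y : Fin (m + 1) → W.H X}
    (hx : ∀ i, x i ∈ PH W X (d i)) (hy : ∀ i, y i ∈ PH W X (d' i)) :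
    W.tr (pw X m) (Eop W X m (ten W X m x) * ten W X m y) = ∏ i, W.tr X (x i * y i) := by
  rw [Eop_ten hx, smul_mul_assoc, map_smul, smul_eq_mul]
  by_cases h : ∀ i, d i % 2 = d' i % 2
  · rw [tr_ten' hx (fun i => PH.congr (h i).symm (hy i)), ← mul_assoc, ← pow_add, ← two_mul,
      pow_mul]
    simp
  · push Not at h
    obtain ⟨i, hi⟩ := h
    have h0 : ∏ i, W.tr X (x i * y i) = 0 :=
      Finset.prod_eq_zero (Finset.mem_univ i) (PH.tr_odd (PH.mul (hx i) (hy i)) (by omega))
    rw [tr_ten' hx hy, h0, mul_zero, mul_zero]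

end Eop

section Contr

variable {B : Type} [Fintype B] [DecidableEq B] {v : Module.Basis B W.K (W.H X)} {S : Sys W}

/-- The matrix of the form `tr (x * u y)`. -/
noncomputable def qM (v : Module.Basis B W.K (W.H X)) (uu : Module.End W.K (W.H X)) :
    Matrix B B W.K := fun a b => W.tr X (v a * uu (v b))

lemma append_zero_left {n : ℕ} (I : Fin 0 → B) (J : Fin n → B) :
    Fin.append I J = J ∘ Fin.cast (zero_add n) := by
  funext k
  rw [Fin.append_left_nil I J rfl]

lemma PP_append {m n : ℕ} (f : Fin (m + n) → (Z ⟶ X)) (G : (Fin (m + n) → B) → W.K) :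
    PP v f G = ∑ J : Fin n → B, PP v (fun k => f (Fin.castAdd n k)) (fun I => G (Fin.append I J)) *
      lp n (fun k => W.map (f (Fin.natAdd m k)) (v (J k))) := by
  rw [PP_def, sum_append, Finset.sum_comm]
  refine Finset.sum_congr rfl fun J _ => ?_
  rw [PP_def, Finset.sum_mul]
  refine Finset.sum_congr rfl fun I _ => ?_
  rw [lp_add, smul_mul_assoc]
  simp only [Fin.append_left, Fin.append_right]

lemma gM_append {m n : ℕ} (A : Fin (m + n) → Matrix B B W.K) (hA : ∀ k, A (Fin.natAdd m k) = 1)
    (G : (Fin (m + n) → B) → W.K) (J : Fin n → B) :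
    (fun I => (gM A).mulVec G (Fin.append I J)) =
      (gM fun k => A (Fin.castAdd n k)).mulVec fun I => G (Fin.append I J) := by
  funext I
  simp only [Matrix.mulVec, dotProduct]
  rw [sum_append]
  refine Finset.sum_congr rfl fun I' _ => ?_
  rw [Finset.sum_eq_single J]
  · simp only [gM, Fin.prod_univ_add, Fin.append_left, Fin.append_right, hA, Matrix.one_apply_eq,
      Finset.prod_const_one, mul_one]
  · intro J' _ hJ'
    obtain ⟨k, hk⟩ := Function.ne_iff.1 hJ'
    have h0 : (1 : Matrix B B W.K) (J k) (J' k) = 0 := Matrix.one_apply_ne (Ne.symm hk)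
    have : gM A (Fin.append I J) (Fin.append I' J') = 0 := by
      simp only [gM, Fin.prod_univ_add, Fin.append_left, Fin.append_right, hA]
      rw [Finset.prod_eq_zero (f := fun k => (1 : Matrix B B W.K) (J k) (J' k))
        (Finset.mem_univ k) h0, mul_zero]
    rw [this, zero_mul]
  · intro h; exact absurd (Finset.mem_univ _) h

/-- **Contractions.** -/
theorem Cs_contr [CharZero W.K] {d : B → ℕ} (hd : ∀ b, v b ∈ W.gr X (d b))
    (hp : oddP W X ∈ S.Op X X) {uu : Module.End W.K (W.H X)} (hu : uu ∈ S.Op X X) {m n : ℕ}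
    {F : (Fin m → B) → W.K} {G : (Fin (m + n) → B) → W.K} (hF : F ∈ Cs S v m)
    (hG : G ∈ Cs S v (m + n)) : qct (qM v uu) F G ∈ Cs S v n := by
  cases m with
  | zero =>
    intro Z f
    have h1 : PP v f (qct (qM v uu) F G) =
        F (fun i => i.elim0) • PP v (fun k => f (Fin.cast (zero_add n) k)) G := by
      rw [PP_append (m := 0) (n := n), PP_def, Finset.smul_sum]
      refine Finset.sum_congr rfl fun J _ => ?_
      rw [PP_def, qct, Finset.sum_smul, Finset.sum_mul, Finset.smul_sum]
      refine Finset.sum_congr rfl fun I _ => ?_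
      rw [lp_zero, smul_mul_assoc, one_mul, smul_smul]
      congr 1
      · congr 1
        simp only [Matrix.vecMul, dotProduct, pM]
        rw [Fintype.sum_unique]
        simp only [Finset.univ_eq_empty, Finset.prod_empty, mul_one]
        congr 1
      · congr 1
        funext k
        congr 2
        exact congrArg f (Fin.ext (by simp))
    rw [h1]
    exact Submodule.smul_mem _ _ (hG _ _)
  | succ m =>
    intro Z f
    set a : Z.prod (pw X m) ⟶ Z := fst Z (pw X m)
    set b : Z.prod (pw X m) ⟶ pw X m := snd Z (pw X m)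
    set g : Fin (m + 1 + n) → (Z.prod (pw X m) ⟶ X) :=
      Fin.append (fun k => b ≫ prj X m k) (fun j => a ≫ f j) with hg
    set φ : Fin (m + 1 + n) → Module.End W.K (W.H X) :=
      Fin.append (fun _ => uu) (fun _ => 1) with hφ
    have hφm : ∀ i, φ i ∈ S.Op X X := by
      intro i
      refine Fin.addCases (fun k => ?_) (fun k => ?_) i
      · rw [hφ, Fin.append_left]; exact hu
      · rw [hφ, Fin.append_right]; exact Sys.Op.id
    have hG' := Cs_gM (v := v) hφm hG
    have h1 := S.push a (S.mul (S.map b (Sys.Op.apply (S := S) (T := S) (fun _ => le_rfl)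
      (Eop_mem S hp m) (mem_Cs_succ.1 hF))) (hG' _ g))
    have h2 : W.push a (W.map b (Eop W X m (PP v (prj X m) F)) *
        PP v g ((gM fun i => mt v (φ i)).mulVec G)) = PP v f (qct (qM v uu) F G) := by
      rw [PP_append (m := m + 1) (n := n) g, PP_def f]
      rw [Finset.mul_sum, map_sum]
      refine Finset.sum_congr rfl fun J _ => ?_
      rw [gM_append _ (fun k => by rw [hφ, Fin.append_right, mt_one])]
      have e1 : (fun k : Fin (m + 1) => g (Fin.castAdd n k)) = fun k => b ≫ prj X m k := by
        funext k; rw [hg, Fin.append_left]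
      have e2 : (fun k : Fin n => g (Fin.natAdd (m + 1) k)) = fun k => a ≫ f k := by
        funext k; rw [hg, Fin.append_right]
      have e3 : (fun k : Fin (m + 1) => mt v (φ (Fin.castAdd n k))) = fun _ => mt v uu := by
        funext k; rw [hφ, Fin.append_left]
      have e4 : lp n (fun k => W.map (g (Fin.natAdd (m + 1) k)) (v (J k))) =
          W.map a (lp n fun k => W.map (f k) (v (J k))) := by
        rw [map_lp]
        congr 1
        funext k
        rw [congrFun e2 k, W.map_comp]
      rw [e1, e3, e4, ← map_PP, ← famOp_PP, ← mul_assoc, ← map_mul, push_snd_fst]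
      congr 1
      rw [PP_prj, PP_prj, map_sum, map_sum, Finset.sum_mul_sum, map_sum, qct]
      rw [Finset.sum_congr rfl fun I' _ => map_sum _ _ _, Finset.sum_comm]
      refine Finset.sum_congr rfl fun I _ => ?_
      rw [Matrix.vecMul, dotProduct, Finset.sum_mul]
      refine Finset.sum_congr rfl fun I' _ => ?_
      rw [map_smul, map_smul, famOp_ten, smul_mul_smul_comm, map_smul, smul_eq_mul,
        tr_Eop_ten (d := fun i => d (I' i)) (d' := fun i => d (I i))
          (fun i => PH.of (hd (I' i))) (fun i => (Sys.Op.ev hu) _ _ (PH.of (hd (I i))))]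
      simp only [pM, qM]
      ring
    rw [h2] at h1
    exact h1

end Contr

end Pool.Agent.Q67.TG
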