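import Pool.Agent.Q67.TG.Bas
import Pool.Agent.Y121.AH.Fix

/-!
# The operators given by the Hodge decomposition
-/

set_option autoImplicit false
set_option linter.unusedSectionVars false

open CategoryTheory AlgebraicGeometry TensorProduct

universe u

namespace Pool.Agent.Q67.TG

open Pool.Agent.H914 Pool.Agent.H914.VarClass Pool.Agent.H914.VarClass.Obj
  Pool.Agent.H914.WeilCohomology
open Pool.Agent.Y133.Half hiding prj extOp_xp
open Pool.Agent.Q67.Det Pool.Agent.Q67.TK
open Pool.Agent.Y121.AH

variable {k : Type u} [Field k] {𝒱 : VarClass k} {ops : CycleOps 𝒱} (T : HodgeTheory ops)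
  {X Y Z : 𝒱.Obj}

/-- the number `i a` -/
noncomputable def zc (a : ℤ) : (CW T).K := (Complex.I * (a : ℂ) : ℂ)

lemma zc_add (a b : ℤ) : zc T (a + b) = zc T a + zc T b := by
  change (Complex.I * ((a + b : ℤ) : ℂ) : ℂ) = Complex.I * (a : ℂ) + Complex.I * (b : ℂ)
  push_cast
  ring

lemma zc_zero : zc T 0 = 0 := by
  change (Complex.I * ((0 : ℤ) : ℂ) : ℂ) = 0
  simp

lemma zc_ne {a : ℤ} (h : a ≠ 0) : zc T a ≠ 0 := by
  change (Complex.I * (a : ℂ) : ℂ) ≠ 0
  exact mul_ne_zero Complex.I_ne_zero (by exact_mod_cast h)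

/-- the number `i ^ a` -/
noncomputable def cc (a : ℤ) : (CW T).K := (Complex.I ^ a : ℂ)

lemma cc_add (a b : ℤ) : cc T (a + b) = cc T a * cc T b :=
  zpow_add₀ (G₀ := ℂ) Complex.I_ne_zero a b

lemma cc_zero : cc T 0 = 1 := zpow_zero (G := ℂ) Complex.I

/-- the derivation `i (p - q)` -/
noncomputable def zop (X : 𝒱.Obj) : Module.End (CW T).K ((CW T).H X) :=
  dia (isInternal T X) fun r => zc T (r.1 - r.2)

/-- the Weil operator `i ^ (p - q)` -/
noncomputable def cop (X : 𝒱.Obj) : Module.End (CW T).K ((CW T).H X) :=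
  dia (isInternal T X) fun r => cc T (r.1 - r.2)

variable {T}

lemma zop_pq {p q : ℤ} {x : (CW T).H X} (hx : x ∈ T.pq X p q) :
    zop T X x = zc T (p - q) • x :=
  dia_apply (isInternal T X) _ (i := (p, q)) hx

lemma cop_pq {p q : ℤ} {x : (CW T).H X} (hx : x ∈ T.pq X p q) :
    cop T X x = cc T (p - q) • x :=
  dia_apply (isInternal T X) _ (i := (p, q)) hx

lemma zop_mul (x y : (CW T).H X) : zop T X (x * y) = zop T X x * y + x * zop T X y := by
  refine pq_ind T (p := fun x => zop T X (x * y) = zop T X x * y + x * zop T X y) ?_ ?_ ?_ x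
  · intro a b x hx
    refine pq_ind T (p := fun y => zop T X (x * y) = zop T X x * y + x * zop T X y) ?_ ?_ ?_ y
    · intro c d y hy
      rw [zop_pq hx, zop_pq hy, zop_pq (T.dec.mul hx hy), smul_mul_assoc, mul_smul_comm,
        ← add_smul, ← zc_add]
      congr 2
      ring
    · intro y z hy hz
      rw [mul_add, map_add, hy, hz, map_add, mul_add, mul_add]
      abel
    · rw [mul_zero, map_zero, mul_zero, mul_zero, add_zero]
  · intro x z hx hz; rw [add_mul, map_add, hx, hz, map_add, add_mul, add_mul]; abel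
  · rw [zero_mul, map_zero, zero_mul, zero_mul, add_zero]

lemma cop_mul (x y : (CW T).H X) : cop T X (x * y) = cop T X x * cop T X y := by
  refine pq_ind T (p := fun x => cop T X (x * y) = cop T X x * cop T X y) ?_ ?_ ?_ x
  · intro a b x hx
    refine pq_ind T (p := fun y => cop T X (x * y) = cop T X x * cop T X y) ?_ ?_ ?_ y
    · intro c d y hy
      rw [cop_pq hx, cop_pq hy, cop_pq (T.dec.mul hx hy), smul_mul_smul_comm, ← cc_add]
      congr 2
      ring
    · intro y z hy hz; rw [mul_add, map_add, hy, hz, map_add, mul_add]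
    · rw [mul_zero, map_zero, mul_zero]
  · intro x z hx hz; rw [add_mul, map_add, hx, hz, map_add, add_mul]
  · rw [zero_mul, map_zero, zero_mul]

lemma zop_map (f : X ⟶ Y) (y : (CW T).H Y) :
    zop T X ((CW T).map f y) = (CW T).map f (zop T Y y) := by
  refine pq_ind T (p := fun y => zop T X ((CW T).map f y) = (CW T).map f (zop T Y y)) ?_ ?_ ?_ y
  · intro a b y hy
    rw [zop_pq hy, zop_pq (T.dec.map f hy), map_smul]
  · intro y z hy hz; rw [map_add, map_add, hy, hz, map_add, map_add]
  · rw [map_zero, map_zero, map_zero, map_zero]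

lemma cop_map (f : X ⟶ Y) (y : (CW T).H Y) :
    cop T X ((CW T).map f y) = (CW T).map f (cop T Y y) := by
  refine pq_ind T (p := fun y => cop T X ((CW T).map f y) = (CW T).map f (cop T Y y)) ?_ ?_ ?_ y
  · intro a b y hy
    rw [cop_pq hy, cop_pq (T.dec.map f hy), map_smul]
  · intro y z hy hz; rw [map_add, map_add, hy, hz, map_add, map_add]
  · rw [map_zero, map_zero, map_zero, map_zero]

/-- The operator `z` on a power is the derivation given by the operator `z` on `X`. -/
lemma zop_ten : ∀ {m : ℕ} (x : Fin (m + 1) → (CW T).H X),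
    zop T (pw X m) (ten (CW T) X m x) =
      ∑ i, ten (CW T) X m (Function.update x i (zop T X (x i)))
  | 0, x => by
    rw [Fin.sum_univ_one, ten_zero, ten_zero, Function.update_self]
    rfl
  | m + 1, x => by
    have h1 : ten (CW T) X (m + 1) x = (CW T).map (fst (pw X m) X) (ten (CW T) X m (Fin.init x)) *
      (CW T).map (snd (pw X m) X) (x (Fin.last (m + 1))) := rfl
    have h2 : zop T (pw X (m + 1)) (ten (CW T) X (m + 1) x) =
        (CW T).map (fst (pw X m) X) (zop T (pw X m) (ten (CW T) X m (Fin.init x))) *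
          (CW T).map (snd (pw X m) X) (x (Fin.last (m + 1))) +
        (CW T).map (fst (pw X m) X) (ten (CW T) X m (Fin.init x)) *
          (CW T).map (snd (pw X m) X) (zop T X (x (Fin.last (m + 1)))) := by
      rw [← zop_map, ← zop_map]
      exact zop_mul (T := T) (X := (pw X m).prod X) _ _
    rw [h2, zop_ten, map_sum, Finset.sum_mul]
    refine Eq.trans ?_ (Fin.sum_univ_castSucc (n := m + 1) _).symm
    refine congrArg₂ (· + ·) ?_ ?_
    · refine Finset.sum_congr rfl fun i _ => ?_
      rw [ten_succ, init_upd_cast, Function.update_of_ne (Fin.castSucc_lt_last i).ne']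
      rfl
    · rw [ten_succ, init_upd_last, Function.update_self]
      rfl

lemma zop_eq (m : ℕ) : zop T (pw X m) = derOp (W := CW T) (zop T X) m :=
  IsDer.eq (W := CW T) (A := zop T X) fun x => zop_ten x

lemma cop_ten : ∀ {m : ℕ} (x : Fin (m + 1) → (CW T).H X),
    cop T (pw X m) (ten (CW T) X m x) = ten (CW T) X m (fun i => cop T X (x i))
  | 0, x => rfl
  | m + 1, x => by
    have h2 : cop T (pw X (m + 1)) (ten (CW T) X (m + 1) x) =
        (CW T).map (fst (pw X m) X) (cop T (pw X m) (ten (CW T) X m (Fin.init x))) *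
          (CW T).map (snd (pw X m) X) (cop T X (x (Fin.last (m + 1)))) := by
      rw [← cop_map, ← cop_map]
      exact cop_mul (T := T) (X := (pw X m).prod X) _ _
    rw [h2, cop_ten]
    rfl

lemma cop_eq (m : ℕ) : cop T (pw X m) = famOp (CW T) X m (fun _ => cop T X) :=
  pw_ext (W := CW T) fun _ x _ => (cop_ten x).trans (famOp_ten (W := CW T) _ x).symm

/-- A class of even degree killed by the operator `z` is of type `(j, j)`. -/
lemma pq_of_zop {j : ℕ} {x : (CW T).H X}
    (hx : x ∈ ⨆ r : {r : ℤ × ℤ // r.1 + r.2 = (2 * j : ℕ)}, T.pq X r.1.1 r.1.2)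
    (h : zop T X x = 0) : x ∈ T.pq X j j := by
  classical
  set N : Module.End (CW T).K ((CW T).H X) := dia (isInternal T X) fun r =>
    if r.1 = r.2 then 0 else (zc T (r.1 - r.2))⁻¹ with hN
  set E : Module.End (CW T).K ((CW T).H X) := dia (isInternal T X) fun r =>
    if r.1 = r.2 then 1 else 0 with hE
  have h1 : ∀ x, N (zop T X x) + E x = x := by
    intro x
    refine pq_ind T (p := fun x => N (zop T X x) + E x = x) ?_ ?_ ?_ x
    · intro a b x hx
      rw [zop_pq hx, map_smul, hN, hE, dia_apply (isInternal T X) _ (i := (a, b)) hx,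
        dia_apply (isInternal T X) _ (i := (a, b)) hx]
      by_cases hab : a = b
      · simp [hab, zc_zero]
      · simp only [if_neg hab, zero_smul, add_zero]
        rw [smul_smul, mul_inv_cancel₀ (zc_ne T (sub_ne_zero.2 hab)), one_smul]
    · intro a b ha hb
      calc N (zop T X (a + b)) + E (a + b)
          = (N (zop T X a) + E a) + (N (zop T X b) + E b) := by
            simp only [map_add]; abel
        _ = a + b := by rw [ha, hb]
    · simp
  have h2 := h1 x
  rw [h, map_zero, zero_add] at h2
  rw [← h2]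
  refine Submodule.iSup_induction
    (fun r : {r : ℤ × ℤ // r.1 + r.2 = (2 * j : ℕ)} => T.pq X r.1.1 r.1.2)
    (motive := fun x => E x ∈ T.pq X j j) hx ?_ ?_ ?_
  · rintro ⟨⟨a, b⟩, hr⟩ x hx
    rw [hE, dia_apply (isInternal T X) _ (i := (a, b)) hx]
    by_cases hab : a = b
    · subst hab
      have h3 : a = j := by
        have h4 : a + a = ((2 * j : ℕ) : ℤ) := hr
        push_cast at h4
        omega
      subst h3
      simpa using hx
    · simp [hab]
  · rw [map_zero]; exact Submodule.zero_mem _
  · intro x y hx hy; rw [map_add]; exact Submodule.add_mem _ hx hy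

/-- A class of odd degree killed by the operator `z` is zero. -/
lemma zero_of_zop {i : ℕ} (hi : i % 2 = 1) {x : (CW T).H X}
    (hx : x ∈ ⨆ r : {r : ℤ × ℤ // r.1 + r.2 = (i : ℤ)}, T.pq X r.1.1 r.1.2)
    (h : zop T X x = 0) : x = 0 := by
  classical
  set N : Module.End (CW T).K ((CW T).H X) := dia (isInternal T X) fun r =>
    (zc T (r.1 - r.2))⁻¹ with hN
  have h2 : N (zop T X x) = x := by
    refine Submodule.iSup_induction
      (fun r : {r : ℤ × ℤ // r.1 + r.2 = (i : ℤ)} => T.pq X r.1.1 r.1.2)
      (motive := fun x => N (zop T X x) = x) hx ?_ ?_ ?_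
    · rintro ⟨⟨a, b⟩, hr⟩ x hx
      have hab : a ≠ b := by
        intro hab
        have h4 : a + b = (i : ℤ) := hr
        omega
      change x ∈ T.pq X a b at hx
      rw [zop_pq hx, map_smul, hN, dia_apply (isInternal T X) _ (i := (a, b)) hx, smul_smul,
        mul_inv_cancel₀ (zc_ne T (sub_ne_zero.2 hab)), one_smul]
    · rw [map_zero, map_zero]
    · intro x y hx hy; rw [map_add, map_add, hx, hy]
  rw [← h2, h, map_zero]

lemma zop_gr {i : ℕ} {c : T.W.H X} (hc : c ∈ T.W.gr X i) :
    zop T X (em T.W ℂ c) ∈ (CW T).gr X i := by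
  refine Submodule.iSup_induction (fun r : {r : ℤ × ℤ // r.1 + r.2 = i} => T.pq X r.1.1 r.1.2)
    (motive := fun x => zop T X x ∈ (CW T).gr X i) (T.dec.span hc) ?_ ?_ ?_
  · intro r x hx
    rw [zop_pq hx]
    exact Submodule.smul_mem _ _ (T.dec.le X r.2 hx)
  · rw [map_zero]; exact Submodule.zero_mem _
  · intro x y hx hy; rw [map_add]; exact Submodule.add_mem _ hx hy

lemma zop_hodge {j : ℕ} {c : T.W.H X} (hc : IsHodge T X j c) : zop T X (em T.W ℂ c) = 0 := by
  rw [zop_pq hc.2, sub_self, zc_zero, zero_smul]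

lemma cop_hodge {j : ℕ} {c : T.W.H X} (hc : IsHodge T X j c) :
    cop T X (em T.W ℂ c) = em T.W ℂ c := by
  rw [cop_pq hc.2, sub_self, cc_zero, one_smul]

/-- **Hodge classes are the rational classes killed by `z`.** -/
theorem mem_hodge_iff {c : T.W.H X} :
    c ∈ (hodgeSys T).C X ↔ zop T X (em T.W ℂ c) = 0 := by
  constructor
  · intro hc
    refine ClassPred.sp_ind (Q := hodgePred T) (q := fun c => zop T X (em T.W ℂ c) = 0)
      ?_ ?_ ?_ hc
    · intro j x hx; exact zop_hodge hx
    · rw [em_zero, map_zero]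
    · intro a b ha hb; rw [em_add, map_add, ha, hb, add_zero]
  · intro hc
    -- the homogeneous components
    have h1 : ∀ i, zop T X (em T.W ℂ (proj (T.W.isInternal X) i c)) = 0 := by
      have key : ∀ c : T.W.H X, ∀ i, zop T X (em T.W ℂ (proj (T.W.isInternal X) i c)) =
          proj ((CW T).isInternal X) i (zop T X (em T.W ℂ c)) := by
        intro c i
        refine gr_induction (T.W.isInternal X)
          (p := fun c => zop T X (em T.W ℂ (proj (T.W.isInternal X) i c)) =
            proj ((CW T).isInternal X) i (zop T X (em T.W ℂ c))) ?_ ?_ c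
        · intro j c hc
          by_cases hij : j = i
          · subst hij
            rw [proj_same _ hc, proj_same _ (zop_gr hc)]
          · rw [proj_ne _ hc hij, proj_ne _ (zop_gr hc) hij, em_zero, map_zero]
        · intro a b ha hb
          rw [map_add, em_add, map_add, ha, hb, em_add, map_add, map_add]
      intro i
      rw [key, hc, map_zero]
    have h2 : ∀ i, proj (T.W.isInternal X) i c ∈ (hodgeSys T).C X := by
      intro i
      rcases Nat.mod_two_eq_zero_or_one i with hi | hi
      · obtain ⟨j, rfl⟩ : ∃ j, i = 2 * j := ⟨i / 2, by omega⟩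
        have h3 : IsHodge T X j (proj (T.W.isInternal X) (2 * j) c) :=
          ⟨proj_mem _ _ _, pq_of_zop (T.dec.span (proj_mem _ _ _)) (h1 _)⟩
        exact ClassPred.sp_of (Q := hodgePred T) h3
      · have h3 := zero_of_zop hi (T.dec.span (proj_mem (T.W.isInternal X) i c)) (h1 i)
        rw [em_injective h3]
        exact Submodule.zero_mem _
    have h4 := congrArg (fun f : Module.End T.W.K (T.W.H X) => f c)
      (sum_proj (T.W.isInternal X) (N := 2 * X.dim + 1) fun i hi => T.W.gr_eq_bot X i (by omega))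
    simp only [LinearMap.sum_apply, Module.End.one_apply] at h4
    rw [← h4]
    exact Submodule.sum_mem _ fun i _ => h2 i

end Pool.Agent.Q67.TG
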