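import Pool.Agent.Q67.TG.Cpx

/-!
# Hodge classes in coordinates
-/

set_option autoImplicit false
set_option linter.unusedSectionVars false

open CategoryTheory AlgebraicGeometry TensorProduct

universe u

namespace Pool.Agent.Q67.TG

open Pool.Agent.H914 Pool.Agent.H914.VarClass Pool.Agent.H914.VarClass.Obj
  Pool.Agent.H914.WeilCohomology
open Pool.Agent.Y133.Half hiding prj extOp_xp
open Pool.Agent.Q67.Det Pool.Agent.Q67.TK
open Pool.Agent.Y121.AH
open scoped Matrix

section Herm

variable {B : Type} [Fintype B] [DecidableEq B]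

open scoped ComplexOrder in
/-- A complex matrix is positive definite if its values are positive. -/
lemma posDef_of_pos {M : Matrix B B ℂ} (h : ∀ x : B → ℂ, x ≠ 0 → 0 < star x ⬝ᵥ M.mulVec x) :
    M.PosDef := by
  have him : ∀ x : B → ℂ, (star x ⬝ᵥ M.mulVec x).im = 0 := by
    intro x
    by_cases hx : x = 0
    · rw [hx]; simp
    · exact (Complex.lt_def.1 (h x hx)).2.symm
  -- the sesquilinear form
  set s : (B → ℂ) → (B → ℂ) → ℂ := fun x y => star x ⬝ᵥ M.mulVec y with hs
  have hadd : ∀ x y, s (x + y) (x + y) = s x x + s y y + (s x y + s y x) := by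
    intro x y
    simp only [hs, star_add, Matrix.mulVec_add, add_dotProduct, dotProduct_add]
    ring
  have h1 : ∀ x y, (s x y + s y x).im = 0 := by
    intro x y
    have e := congrArg Complex.im (hadd x y)
    rw [Complex.add_im, Complex.add_im] at e
    have e1 : (s (x + y) (x + y)).im = 0 := him _
    have e2 : (s x x).im = 0 := him _
    have e3 : (s y y).im = 0 := him _
    rw [e1, e2, e3] at e
    linarith
  have hsm : ∀ (c : ℂ) x y, s x (c • y) = c * s x y := by
    intro c x y
    simp only [hs, Matrix.mulVec_smul, dotProduct_smul, smul_eq_mul]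
  have hsm' : ∀ (c : ℂ) x y, s (c • x) y = star c * s x y := by
    intro c x y
    simp only [hs, star_smul, smul_dotProduct, smul_eq_mul]
  have h2 : ∀ x y, s y x = star (s x y) := by
    intro x y
    have e1 := h1 x y
    have e2 := h1 x (Complex.I • y)
    rw [hsm, hsm'] at e2
    apply Complex.ext
    · simp only [Complex.star_def, Complex.conj_re, Complex.conj_I, Complex.add_im,
        Complex.mul_im, Complex.I_re, Complex.I_im, Complex.neg_re, Complex.neg_im] at e2 ⊢
      linarith
    · simp only [Complex.star_def, Complex.conj_im, Complex.add_im] at e1 ⊢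
      linarith
  refine Matrix.PosDef.of_dotProduct_mulVec_pos ?_ (fun x hx => h x hx)
  ext i j
  have h3 := h2 (Pi.single j 1) (Pi.single i 1)
  simp only [hs, Pi.star_single, star_one, Matrix.mulVec_single_one, single_one_dotProduct] at h3
  rw [Matrix.conjTranspose_apply]
  exact h3.symm

end Herm

variable {k : Type u} [Field k] {𝒱 : VarClass k} {ops : CycleOps 𝒱} {T : HodgeTheory ops}
  {X Y Z : 𝒱.Obj}

/-- a complex number as an element of the coefficient field -/
def toK (T : HodgeTheory ops) (c : ℂ) : (CW T).K := c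

lemma em_ten : ∀ {m : ℕ} (x : Fin (m + 1) → T.W.H X),
    em T.W ℂ (ten T.W X m x) = ten (CW T) X m (fun i => em T.W ℂ (x i))
  | 0, x => rfl
  | m + 1, x => by
    have h1 : em T.W ℂ (ten T.W X (m + 1) x) =
        em T.W ℂ (T.W.map (fst (pw X m) X) (ten T.W X m (Fin.init x)) *
          T.W.map (snd (pw X m) X) (x (Fin.last (m + 1)))) := rfl
    have h2 : em T.W ℂ (T.W.map (fst (pw X m) X) (ten T.W X m (Fin.init x)) *
          T.W.map (snd (pw X m) X) (x (Fin.last (m + 1)))) =
        (CW T).map (fst (pw X m) X) (em T.W ℂ (ten T.W X m (Fin.init x))) *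
          (CW T).map (snd (pw X m) X) (em T.W ℂ (x (Fin.last (m + 1)))) := by
      rw [em_mul, ← em_map, ← em_map]
    rw [h1]
    refine h2.trans ?_
    rw [em_ten]
    rfl

section Coord

variable {B : Type} [Fintype B] [DecidableEq B] (v : Module.Basis B T.W.K (T.W.H X))

/-- the basis of the cohomology with complex coefficients -/
noncomputable def vC : Module.Basis B (CW T).K ((CW T).H X) :=
  (v.baseChange ℂ : Module.Basis B ℂ (ℂ ⊗[T.W.K] T.W.H X))

lemma vC_apply (b : B) : vC v b = em T.W ℂ (v b) := Module.Basis.baseChange_apply ℂ v b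

lemma em_sum {ι : Type*} (s : Finset ι) (f : ι → T.W.H X) :
    em T.W ℂ (∑ i ∈ s, f i) = ∑ i ∈ s, em T.W ℂ (f i) := by
  classical
  induction s using Finset.induction_on with
  | empty => simp [em_zero]
  | insert a s ha ih => rw [Finset.sum_insert ha, Finset.sum_insert ha, em_add, ih]

/-- a rational tensor as a tensor with coefficients in the coefficient field of `CW T` -/
def upC {n : ℕ} (F : (Fin n → B) → T.W.K) : (Fin n → B) → (CW T).K := up F

lemma em_PP {m : ℕ} (F : (Fin (m + 1) → B) → T.W.K) :
    em T.W ℂ (PP v (Det.prj X m) F) = PP (vC v) (Det.prj X m) (upC F) := by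
  rw [PP_prj, PP_prj, em_sum]
  refine Finset.sum_congr rfl fun I _ => ?_
  rw [em_smul, em_ten]
  simp only [vC_apply]
  rfl

/-- the matrix of `z` -/
noncomputable def zM : Matrix B B ℂ := mt (vC v) (zop T X)

/-- the matrix of the Weil operator -/
noncomputable def cM : Matrix B B ℂ := mt (vC v) (cop T X)

lemma zop_em_PP {m : ℕ} (F : (Fin (m + 1) → B) → T.W.K) :
    zop T (pw X m) (em T.W ℂ (PP v (Det.prj X m) F)) =
      PP (vC v) (Det.prj X m) ((dM (m + 1) (zM v)).mulVec (up F)) := by
  rw [em_PP, zop_eq]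
  exact derOp_PP (W := CW T) (vC v) (zop T X) (upC F)

lemma cop_em_PP {m : ℕ} (F : (Fin (m + 1) → B) → T.W.K) :
    cop T (pw X m) (em T.W ℂ (PP v (Det.prj X m) F)) =
      PP (vC v) (Det.prj X m) ((pM (m + 1) (cM v)).mulVec (up F)) := by
  rw [em_PP, cop_eq]
  exact famOp_PP (W := CW T) (vC v) (fun _ => cop T X) (upC F)

/-- **The tensors of the Hodge classes are the rational tensors killed by `z`.** -/
theorem hodge_Cs (n : ℕ) : Cs (hodgeSys T) v n = Ker (K := T.W.K) (zM v) n := by
  ext F
  cases n with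
  | zero =>
    constructor
    · intro _
      rw [mem_Ker]
      funext I
      simp [dM_mulVec]
    · intro _; exact mem_Cs_zero _
  | succ m =>
    rw [mem_Cs_succ, mem_hodge_iff, zop_em_PP, mem_Ker]
    constructor
    · intro h
      exact PP_inj (W := CW T) (vC v) (h.trans (PP_zero _).symm)
    · intro h
      have h1 : (show (Fin (m + 1) → B) → (CW T).K from (dM (m + 1) (zM v)).mulVec (up F)) = 0 := h
      exact (congrArg (PP (vC v) (Det.prj X m)) h1).trans (PP_zero _)

lemma cop_fix {c : T.W.H X} (hc : c ∈ (hodgeSys T).C X) :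
    cop T X (em T.W ℂ c) = em T.W ℂ c := by
  refine ClassPred.sp_ind (Q := hodgePred T)
    (q := fun c => cop T X (em T.W ℂ c) = em T.W ℂ c) ?_ ?_ ?_ hc
  · intro j x hx; exact cop_hodge hx
  · rw [em_zero, map_zero]
  · intro a b ha hb; rw [em_add, map_add, ha, hb]

/-- The Weil operator fixes the tensors of the Hodge classes. -/
lemma cM_fix {n : ℕ} {F : (Fin n → B) → T.W.K} (hF : F ∈ Cs (hodgeSys T) v n) :
    (pM n (cM v)).mulVec (up F) = up F := by
  cases n with
  | zero =>
    funext I
    simp only [Matrix.mulVec, dotProduct, pM_apply, Finset.univ_eq_empty, Finset.prod_empty,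
      one_mul]
    rw [Fintype.sum_unique]
    exact congrArg (up F) (Subsingleton.elim _ _)
  | succ m =>
    have h1 := cop_fix (mem_Cs_succ.1 hF)
    rw [cop_em_PP, em_PP] at h1
    exact PP_inj (W := CW T) (vC v) h1

/-- The operator `uu` defines a polarisation: if `C` is the Weil operator then
`tr (C (conj x) * uu x) > 0` for all `x ≠ 0` in the cohomology with complex coefficients. -/
def Pol (T : HodgeTheory ops) (X : 𝒱.Obj) (uu : Module.End T.W.K (T.W.H X)) : Prop :=
  ∀ (r : ℕ) (c : Fin r → ℂ) (a : Fin r → T.W.H X),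
    (∑ i, (toK T (c i)) • em T.W ℂ (a i) ≠ 0) →
    ∃ s : ℝ, 0 < s ∧ (CW T).tr X (cop T X (∑ i, (toK T (star (c i))) • em T.W ℂ (a i)) *
      ∑ i, (toK T (c i)) • em T.W ℂ (uu (a i))) = toK T (s : ℂ)

end Coord

open scoped ComplexOrder in
lemma posDef_of_pol {n : ℕ} {v : Module.Basis (Fin n) T.W.K (T.W.H X)}
    {uu : Module.End T.W.K (T.W.H X)} (h : Pol T X uu) :
    ((cM v)ᵀ * upM (qM v uu)).PosDef := by
  apply posDef_of_pos
  intro x hx
  have hne : ∑ i, (toK T (x i)) • em T.W ℂ (v i) ≠ 0 := by
    intro h0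
    apply hx
    have h1 := (vC v).linearIndependent
    rw [Fintype.linearIndependent_iff] at h1
    funext i
    refine h1 (fun i => (toK T (x i))) ?_ i
    simp only [vC_apply]
    exact h0
  obtain ⟨s, hs, hs'⟩ := h n x (fun i => v i) hne
  have key : star x ⬝ᵥ ((cM v)ᵀ * upM (qM v uu)).mulVec x = (s : ℂ) := by
    refine Eq.trans ?_ hs'
    have e1 : cop T X (∑ i, (toK T (star (x i))) • em T.W ℂ (v i)) =
        ∑ i, ∑ c, ((toK T (star (x i))) * (toK T (cM v c i))) •
          em T.W ℂ (v c) := by
      rw [map_sum]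
      refine Finset.sum_congr rfl fun i _ => ?_
      rw [map_smul, ← vC_apply v i, mt_spec (vC v) (cop T X) i, Finset.smul_sum]
      refine Finset.sum_congr rfl fun c _ => ?_
      rw [smul_smul, vC_apply]
      rfl
    rw [e1, Finset.sum_mul, map_sum]
    simp only [dotProduct, Matrix.mulVec, Matrix.mul_apply, Matrix.transpose_apply,
      Finset.sum_mul, Finset.mul_sum, map_sum]
    refine Finset.sum_congr rfl fun i _ => ?_
    refine Finset.sum_congr rfl fun j _ => Finset.sum_congr rfl fun c _ => ?_
    rw [smul_mul_smul_comm, map_smul, ← em_mul, em_tr]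
    change star (x i) * (cM v c i * upM (qM v uu) c j * x j) =
      (star (x i) * cM v c i * x j) * algebraMap T.W.K ℂ (T.W.tr X (v c * uu (v j)))
    rw [upM_apply, qM]
    ring
  rw [key]
  exact_mod_cast hs

end Pool.Agent.Q67.TG
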