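import Pool.Agent.Y121.AHS.Ext
import Pool.Agent.Y121.AHS.Gen0

/-!
# Derivations, correspondences and polarisations: definitions in linear algebra
-/

namespace Pool.Agent.Q67.TG.F

open Pool.Agent.Y121.AHS

/-- The linear operators on the algebra `H`. -/
abbrev Lin (K H : Type) [Field K] [Ring H] [Algebra K H] : Type := Module.End K H

variable {K H G : Type} [Field K] [Ring H] [Algebra K H] [Ring G] [Algebra K G]

/-- The operator `D` is the derivation given by the operator `A`, where `t x` is the product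
`x 0 × ... × x m`: it sends `x 0 × ... × x m` to `∑ i, x 0 × ... × A (x i) × ... × x m`. -/
def IsDerFor {m : ℕ} (t : (Fin (m + 1) → H) → G) (A : Lin K H) (D : Lin K G) : Prop :=
  ∀ x, D (t x) = ∑ i, t (Function.update x i (A (x i)))

/-- The derivation given by `A` kills the elements of `S`. -/
def KillsFor {m : ℕ} (t : (Fin (m + 1) → H) → G) (S : Set G) (A : Lin K H) : Prop :=
  ∀ D : Lin K G, IsDerFor t A D → ∀ c ∈ S, D c = 0

/-- The operator `φ` is `a ↦ s (z p(a))` for a linear combination `z` of elements of `S`. -/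
def OpBy (p : H →ₐ[K] G) (s : G →ₗ[K] H) (S : Set G) (φ : Lin K H) : Prop :=
  ∃ z, InSpan K S z ∧ ∀ a, φ a = transfer p s z a

/-- The operator `A` commutes with all operators with the property `P`. -/
def Commutes (P : Lin K H → Prop) (A : Lin K H) : Prop :=
  ∀ φ, P φ → A * φ = φ * A

/-- The operator `A` is skew-symmetric with respect to the pairing `tr (x y)`. -/
def IsSkew (tr : H →ₗ[K] K) (A : Lin K H) : Prop :=
  ∀ x y, tr (A x * y) = - tr (x * A y)

/-- The operator `φ` is the projector onto the sum of the spaces `gr i` with odd `i`. -/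
def IsOddProj (gr : ℕ → Submodule K H) (φ : Lin K H) : Prop :=
  ∀ i, ∀ x ∈ gr i, φ x = if i % 2 = 1 then x else 0

variable [Algebra K ℂ]

/-- The map `C` is the Weil operator: it is additive and multiplies the elements of type `(p, q)`
by `i ^ (p - q)`. -/
def IsWeil (pq : ℤ → ℤ → Submodule ℂ (Ext K ℂ H)) (C : Ext K ℂ H → Ext K ℂ H) : Prop :=
  (∀ x y, C (x + y) = C x + C y) ∧
    ∀ p q x, x ∈ pq p q → C x = extSm K ℂ (Complex.I ^ (p - q)) x

/-- The element `∑ c i a i` with complex coefficients `c i`. -/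
noncomputable def comb {r : ℕ} (c : Fin r → ℂ) (a : Fin r → H) : Ext K ℂ H :=
  ∑ i, extSm K ℂ (c i) (extEm K ℂ (a i))

/-- The number `tr (C x' · u x)` is positive for every `x = ∑ c i a i ≠ 0` with complex coefficients
`c i`, where `x' = ∑ (conj (c i)) a i` is the complex conjugate of `x` and
`u x = ∑ c i (u (a i))`. -/
def IsPositive (tr : H →ₗ[K] K) (C : Ext K ℂ H → Ext K ℂ H) (u : Lin K H) : Prop :=
  ∀ (r : ℕ) (c : Fin r → ℂ) (a : Fin r → H), comb (K := K) c a ≠ 0 →
    ∃ s : ℝ, 0 < s ∧ extForm K ℂ tr (extMul K ℂ (C (comb (fun i => star (c i)) a))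
      (comb c fun i => u (a i))) = (s : ℂ)

end Pool.Agent.Q67.TG.F
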