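import Pool.Agent.Y121.AHS.Defs
import Pool.Agent.Q67.Det.Defs
import Pool.Agent.Q67.TG.GenDefs
import Pool.Agent.Y133.Half.PairDefs

/-!
# Operators on the cohomology and the classes on the powers which they kill: definitions

`Pool.Agent.Y121.AHS.HodgeTheory` is a Weil cohomology with rational coefficients together with a
Hodge decomposition of its cohomology with complex coefficients.
-/

open CategoryTheory AlgebraicGeometry

universe u

namespace Pool.Agent.Q67.TG.F

open Pool.Agent.H914 Pool.Agent.H914.VarClass Pool.Agent.H914.VarClass.Obj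
  Pool.Agent.H914.WeilCohomology
open Pool.Agent.Y133.Half (pw algSet algDim HasIndex AtMostHalf)
open Pool.Agent.Y121.AHS
open Pool.Agent.Q67.Det (ten)

variable {k : Type u} [Field k] {𝒱 : VarClass k} {ops : CycleOps 𝒱}

/-- The operators on the cohomology of `X`. -/
abbrev Opr (T : HodgeTheory ops) (X : 𝒱.Obj) : Type := Lin T.W.K (T.W.H X)

/-- The Hodge classes on `Z`. -/
def hodgeSet (T : HodgeTheory ops) (Z : 𝒱.Obj) : Set (T.W.H Z) := {c | ∃ j, IsHodge T Z j c}

/-- The operator `φ` is the correspondence `x ↦ pr₂_* (z · pr₁^* x)` for a linear combination `z` of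
classes of `S` on `X × X`. -/
def IsOpBy (T : HodgeTheory ops) (X : 𝒱.Obj) (S : Set (T.W.H (X.prod X))) (φ : Opr T X) : Prop :=
  OpBy (T.W.map (fst X X)) (T.W.push (snd X X)) S φ

/-- The operator `φ` is given by classes of algebraic cycles on `X × X`. -/
def IsAlgOp (T : HodgeTheory ops) (X : 𝒱.Obj) (φ : Opr T X) : Prop :=
  IsOpBy T X (algSet T.W (X.prod X)) φ

/-- The operator `φ` is given by Hodge classes on `X × X`. -/
def IsHodgeOp (T : HodgeTheory ops) (X : 𝒱.Obj) (φ : Opr T X) : Prop :=
  IsOpBy T X (hodgeSet T (X.prod X)) φ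

/-- The operator `A` lies in the centre of the algebra of the operators given by Hodge classes. -/
def Central (T : HodgeTheory ops) (X : 𝒱.Obj) (A : Opr T X) : Prop :=
  IsHodgeOp T X A ∧ Commutes (IsHodgeOp T X) A

/-- The projector of the cohomology of `X` onto the cohomology of odd degree is given by algebraic
classes. -/
def OddAlg (T : HodgeTheory ops) (X : 𝒱.Obj) : Prop :=
  ∃ φ, IsAlgOp T X φ ∧ IsOddProj (T.W.gr X) φ

/-- The operator `u` is a polarisation of the cohomology of `X`: `tr (C x' · u x)` is positive for
every nonzero class `x` with complex coefficients, where `C` is the Weil operator and `x'` is the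
complex conjugate of `x`. -/
def IsPolarisation (T : HodgeTheory ops) (X : 𝒱.Obj) (u : Opr T X) : Prop :=
  ∀ C, IsWeil (T.pq X) C → IsPositive (T.W.tr X) C u

/-- All Hodge classes on `Z` are linear combinations of elements of `S`. -/
def HodgeIn (T : HodgeTheory ops) (Z : 𝒱.Obj) (S : Set (T.W.H Z)) : Prop :=
  ∀ c ∈ hodgeSet T Z, InSpan T.W.K S c

/-- All Hodge classes on `Z` are linear combinations of classes of algebraic cycles. -/
def HodgeConj (T : HodgeTheory ops) (Z : 𝒱.Obj) : Prop := HodgeIn T Z (algSet T.W Z)

/-- The class `x` on `Z` is the image `pr₂_* (z · pr₁^* c)` of the class `c` on `Y` under an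
algebraic correspondence `z`. -/
def IsImage (T : HodgeTheory ops) {Y Z : 𝒱.Obj} (c : T.W.H Y) (x : T.W.H Z) : Prop :=
  ∃ z ∈ algSet T.W (Y.prod Z), transfer (T.W.map (fst Y Z)) (T.W.push (snd Y Z)) z c = x

/-- The classes of algebraic cycles on `Z` and the images of the classes `c i` under algebraic
correspondences. -/
def gens (T : HodgeTheory ops) {r : ℕ} {Y : Fin r → 𝒱.Obj} (c : ∀ i, T.W.H (Y i)) (Z : 𝒱.Obj) :
    Set (T.W.H Z) :=
  {x | x ∈ algSet T.W Z ∨ ∃ i, IsImage T (c i) x}

/-- There are `r` Hodge classes on powers of `X`, where `r + 1 ≤ N`, such that all Hodge classes on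
all powers of `X` are linear combinations of classes of algebraic cycles and of images of these `r`
classes under algebraic correspondences. -/
def Generated (T : HodgeTheory ops) (X : 𝒱.Obj) (N : ℕ∞) : Prop :=
  ∃ (r : ℕ) (m : Fin r → ℕ) (c : ∀ i, T.W.H (pw X (m i))), (r : ℕ∞) + 1 ≤ N ∧
    (∀ i, c i ∈ hodgeSet T (pw X (m i))) ∧ ∀ n, HodgeIn T (pw X n) (gens T c (pw X n))

/-- The derivations given by the operator `A` kill the classes of algebraic cycles on all powers
of `X`. -/
def KillsAlg (T : HodgeTheory ops) (X : 𝒱.Obj) (A : Opr T X) : Prop :=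
  ∀ m, KillsFor (ten T.W X m) (algSet T.W (pw X m)) A

/-- The derivation given by the operator `A` kills the Hodge classes on the product of `m + 1`
copies of `X`. -/
def KillsHodge (T : HodgeTheory ops) (X : 𝒱.Obj) (A : Opr T X) (m : ℕ) : Prop :=
  KillsFor (ten T.W X m) (hodgeSet T (pw X m)) A

/-- The quotients of the dimension of the space of the Hodge classes on the product of `n + 1`
copies of `X` by the dimension of the space of the algebraic classes converge to `N`. -/
def IndexIs (T : HodgeTheory ops) (X : 𝒱.Obj) (N : ℕ∞) : Prop :=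
  HasIndex (fun n => hodgeDim T (pw X n)) (fun n => algDim T.W (pw X n)) N

/-- Asymptotically at most one half of the Hodge classes on the powers of `X` are algebraic. -/
def HalfOnly (T : HodgeTheory ops) (X : 𝒱.Obj) : Prop :=
  AtMostHalf (fun n => algDim T.W (pw X n)) fun n => hodgeDim T (pw X n)

/-- Every operator which kills the algebraic classes on all powers of `X`, kills the Hodge classes
on all powers. -/
def CritAll (T : HodgeTheory ops) (X : 𝒱.Obj) : Prop :=
  ∀ A, KillsAlg T X A → ∀ m, KillsHodge T X A m

/-- Every operator which kills the algebraic classes on all powers of `X`, kills the Hodge classes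
on `X^4`. -/
def CritFour (T : HodgeTheory ops) (X : 𝒱.Obj) : Prop :=
  ∀ A, KillsAlg T X A → KillsHodge T X A 3

/-- Every element of the centre of the algebra of the operators given by Hodge classes which kills
the algebraic classes on all powers of `X`, kills the Hodge classes on all powers. -/
def CritCentral (T : HodgeTheory ops) (X : 𝒱.Obj) : Prop :=
  ∀ A, Central T X A → KillsAlg T X A → ∀ m, KillsHodge T X A m

/-- No nonzero element of the centre of the algebra of the operators given by Hodge classes is
skew-symmetric. -/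
def NoCentralSkew (T : HodgeTheory ops) (X : 𝒱.Obj) : Prop :=
  ∀ A, Central T X A → IsSkew (T.W.tr X) A → A = 0

end Pool.Agent.Q67.TG.F
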