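import Pool.Agent.Q67.TG.Main5
import Pool.Agent.Q67.TG.FDefs
import Pool.Agent.Y121.AHS.Conv

/-!
# Algebraic classes, and comparison of the definitions
-/

set_option autoImplicit false
set_option linter.unusedSectionVars false

open CategoryTheory AlgebraicGeometry TensorProduct Filter Topology

universe u v

namespace Pool.Agent.Q67.TG

open Pool.Agent.H914 Pool.Agent.H914.VarClass Pool.Agent.H914.VarClass.Obj
  Pool.Agent.H914.WeilCohomology
open Pool.Agent.Y133.Half hiding prj extOp_xp
open Pool.Agent.Q67.Det Pool.Agent.Q67.TK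
open Pool.Agent.W458.MF Pool.Agent.W536.RR Pool.Agent.H281R3.HT

variable {k : Type u} [Field k] {𝒱 : VarClass k} {ops : CycleOps 𝒱}

section alg

variable {W : WeilCohomology.{u, v} ops} {X Y Z : 𝒱.Obj}

lemma span_alg {j : ℕ} {c : W.H X} (hc : c ∈ spanCycles W X j) : c ∈ algSpan W X :=
  Pool.Agent.Y129.span_le_algSpan j hc

variable (W) in
/-- The classes of algebraic cycles. -/
noncomputable def algPred : ClassPred W where
  P X j c := c ∈ spanCycles W X j
  gr h := span_gr h
  zero := Submodule.zero_mem _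
  add := Submodule.add_mem _
  smul r _ h := Submodule.smul_mem _ r h
  cl {X j z} hz := Submodule.subset_span ⟨j, rfl, z, hz, rfl⟩
  mul {X i j a b} ha hb := by
    refine spanCycles_of_algSpan ((algSys W).mul (span_alg ha) (span_alg hb)) ?_
    have h1 := W.mul_mem (span_gr ha) (span_gr hb)
    rwa [← mul_add] at h1
  map f _ _ h := spanCycles_of_algSpan ((algSys W).map f (span_alg h)) (W.map_mem f (span_gr h))
  push {X Y} f {j l} hl {a} h := by
    refine spanCycles_of_algSpan ((algSys W).push f (span_alg h)) ?_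
    have h5 := W.push_mem f (span_gr h)
    have h6 : ((2 * j : ℕ) : ℤ) + 2 * ((Y.dim : ℤ) - X.dim) = ((2 * l : ℕ) : ℤ) := by omega
    rw [h6, grZ_natCast] at h5
    exact h5

lemma algPred_sys (Z : 𝒱.Obj) : (algPred W).sys.C Z = algSpan W Z :=
  (ClassPred.sp_eq_iff (Q := algPred W) Z).2 fun _ _ h => h

lemma dimBy_alg (Z : 𝒱.Obj) : dimBy W (algPred W).P Z = algDim W Z := by
  rw [ClassPred.dimBy_eq, algPred_sys, algDim_eq]

end alg

section conv

open Pool.Agent.Y121 Pool.Agent.Y121.AHS
open Pool.Agent.Q67.TG.F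

variable {T : AHS.HodgeTheory ops} {X Y Z : 𝒱.Obj}

/-- The Weil operator. -/
noncomputable def weilC (T : AHS.HodgeTheory ops) (X : 𝒱.Obj) :
    Ext T.W.K ℂ (T.W.H X) → Ext T.W.K ℂ (T.W.H X) :=
  fun x => cop (toH T) X x

lemma weilC_isWeil : IsWeil (T.pq X) (weilC T X) := by
  refine ⟨fun x y => map_add (cop (toH T) X) _ _, ?_⟩
  intro p q x hx
  exact cop_pq (T := toH T) (p := p) (q := q) hx

/-- The conversion of the polarisation. -/
lemma pol_of {u : Module.End T.W.K (T.W.H X)} (h : IsPolarisation T X u) : Pol (toH T) X u := by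
  intro r c a h0
  obtain ⟨s, hs, h1⟩ := h (weilC T X) weilC_isWeil r c a h0
  exact ⟨s, hs, h1⟩

/-- The system of the algebraic classes. -/
noncomputable def algP (T : AHS.HodgeTheory ops) : ClassPred (toH T).W := algPred T.W

lemma isOpBy_iff {S : Set (T.W.H (X.prod X))} {φ : Module.End T.W.K (T.W.H X)} :
    IsOpBy T X S φ ↔ ∃ z ∈ Submodule.span T.W.K S, T.W.corr z = φ := by
  constructor
  · rintro ⟨z, hz, h⟩
    exact ⟨z, hz, LinearMap.ext fun a => (h a).symm⟩
  · rintro ⟨z, hz, h⟩
    exact ⟨z, hz, fun a => by rw [← h]; rfl⟩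

lemma isAlgOp_iff {φ : Module.End T.W.K (T.W.H X)} :
    IsAlgOp T X φ ↔ φ ∈ (algP T).sys.Op X X := by
  have h : φ ∈ (algPred T.W).sys.Op X X ↔ IsAlgOp T X φ := by
    rw [Sys.mem_Op, IsAlgOp, isOpBy_iff, algPred_sys, algSet_span]
  exact h.symm

lemma isHodgeOp_iff {φ : Module.End T.W.K (T.W.H X)} :
    IsHodgeOp T X φ ↔ φ ∈ (AH.hodgeSys (toH T)).Op X X :=
  isOpBy_iff.trans (Sys.mem_Op (S := AH.hodgeSys (toH T)) (X := X) (Y := X) (u := φ)).symm

lemma hodge_le {Z : 𝒱.Obj} {j : ℕ} {c : (toH T).W.H Z} (h : (algP T).P Z j c) :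
    (AH.hodgePred (toH T)).P Z j c :=
  ClassPred.span_le (Q := AH.hodgePred (toH T)) h

lemma odd_of (h : OddAlg T X) : oddP (toH T).W X ∈ (algP T).sys.Op X X := by
  have hch := charZero_K (toH T)
  obtain ⟨φ, hφ, h1⟩ := h
  have h2 : oddP (toH T).W X = φ := by
    refine LinearMap.ext fun x => ?_
    refine gr_induction ((toH T).W.isInternal X) (p := fun x => oddP (toH T).W X x = φ x) ?_ ?_ x
    · intro i x hx
      rw [oddP_apply (PH.of hx)]
      exact (h1 i x hx).symm
    · intro a b ha hb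
      rw [map_add, ha, hb]
      exact (map_add φ a b).symm
  rw [h2]
  exact isAlgOp_iff.1 hφ

/-- The polarisation data. -/
noncomputable def polData {u : Module.End T.W.K (T.W.H X)} (hu : IsAlgOp T X u)
    (hpol : IsPolarisation T X u) (hodd : OddAlg T X) : PolData (toH T) (algP T).sys X where
  le _ := ClassPred.sys_le hodge_le _
  uu := u
  mem := isAlgOp_iff.1 hu
  odd := odd_of hodd
  pol := pol_of hpol

lemma killsAlg_iff {A : Module.End T.W.K (T.W.H X)} :
    KillsAlg T X A ↔ KillsAll (T := toH T) (algP T).sys X A := by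
  constructor
  · intro h m c hc
    have h1 : c ∈ Submodule.span T.W.K (algSet T.W (pw X m)) := by
      rw [algSet_span, ← algPred_sys]
      exact hc
    have h2 : Submodule.span T.W.K (algSet T.W (pw X m)) ≤
        LinearMap.ker (derOp (W := T.W) A m) :=
      Submodule.span_le.2 fun x hx => h m _ (derOp_isDer (W := T.W) A m) x hx
    exact h2 h1
  · intro h m D hD c hc
    rw [IsDer.eq (W := T.W) hD]
    refine h m c ?_
    have h1 : c ∈ algSpan T.W (pw X m) := by
      rw [← algSet_span]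
      exact Submodule.subset_span hc
    rw [← algPred_sys] at h1
    exact h1

lemma killsHodge_iff {A : Module.End T.W.K (T.W.H X)} {m : ℕ} :
    KillsHodge T X A m ↔ ∀ c ∈ (AH.hodgeSys (toH T)).C (pw X m),
      derOp (W := (toH T).W) A m c = 0 := by
  constructor
  · intro h c hc
    have h2 : (AH.hodgeSys (toH T)).C (pw X m) ≤ LinearMap.ker (derOp (W := T.W) A m) :=
      Submodule.span_le.2 fun x ⟨j, hx⟩ => h _ (derOp_isDer (W := T.W) A m) x ⟨j, hx⟩
    exact h2 hc
  · intro h D hD c hc
    rw [IsDer.eq (W := T.W) hD]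
    obtain ⟨j, hj⟩ := hc
    exact h c (ClassPred.sp_of (Q := AH.hodgePred (toH T)) hj)

lemma hodgeConj_iff : HodgeConj T Z ↔ ∀ j c, AHS.IsHodge T Z j c → c ∈ spanCycles T.W Z j := by
  constructor
  · intro h j c hc
    have h1 : c ∈ Submodule.span T.W.K (algSet T.W Z) := h c ⟨j, hc⟩
    rw [algSet_span] at h1
    exact spanCycles_of_algSpan h1 hc.1
  · rintro h c ⟨j, hc⟩
    have h1 := span_alg (h j c hc)
    rw [← algSet_span] at h1
    exact h1

/-- The generators. -/
lemma generated_of {N : ℕ∞}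
    (h : GeneratedOver (toH T).W (algP T).P (AH.hodgePred (toH T)).P X N) : Generated T X N := by
  obtain ⟨r, c, hr, hc, hG⟩ := h
  refine ⟨r, fun i => (c i).1, fun i => (c i).2, hr, hc, fun n x ⟨j, hx⟩ => ?_⟩
  have h1 : x ∈ genOver T.W (algPred T.W).P X c n := hG n j x hx
  change x ∈ Submodule.span T.W.K (gens T (fun i => (c i).2) (pw X n))
  refine (Submodule.span_le.2 ?_ : genOver T.W (algPred T.W).P X c n ≤ _) h1
  rintro y (⟨j, hy⟩ | hy)
  · have h2 := span_alg (W := T.W) hy
    rw [← algSet_span] at h2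
    exact Submodule.span_mono (fun z hz => Or.inl hz) h2
  · obtain ⟨i, hi⟩ := Set.mem_iUnion.1 hy
    obtain ⟨j, z, hz, hzy⟩ := hi
    have h2 := span_alg (W := T.W) hz
    rw [← algSet_span] at h2
    rw [← hzy]
    have key : ∀ z ∈ Submodule.span T.W.K (algSet T.W ((pw X (c i).1).prod (pw X n))),
        T.W.push (snd (pw X (c i).1) (pw X n)) (z * T.W.map (fst (pw X (c i).1) (pw X n)) (c i).2) ∈
          Submodule.span T.W.K (gens T (fun i => (c i).2) (pw X n)) := by
      intro z hz
      induction hz using Submodule.span_induction with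
      | mem z hz => exact Submodule.subset_span (Or.inr ⟨i, z, hz, rfl⟩)
      | zero => rw [zero_mul, map_zero]; exact Submodule.zero_mem _
      | add a b _ _ ha hb => rw [add_mul, map_add]; exact Submodule.add_mem _ ha hb
      | smul r a _ ha => rw [smul_mul_assoc, map_smul]; exact Submodule.smul_mem _ _ ha
    exact key z h2

end conv

end Pool.Agent.Q67.TG
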