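import Pool.Agent.Q67.TG.Contr

/-!
# The inverse of the form
-/

set_option autoImplicit false
set_option linter.unusedSectionVars false

open CategoryTheory AlgebraicGeometry

universe u v

namespace Pool.Agent.Q67.TG

open Pool.Agent.H914 Pool.Agent.H914.VarClass Pool.Agent.H914.VarClass.Obj
  Pool.Agent.H914.WeilCohomology
open Pool.Agent.Y133.Half hiding prj extOp_xp
open Pool.Agent.Q67.Det Pool.Agent.Q67.TK

variable {k : Type u} [Field k] {𝒱 : VarClass k} {ops : CycleOps 𝒱}
  {W : WeilCohomology.{u, v} ops} {X Y Z Z' P : 𝒱.Obj}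

lemma adj_symm {a : W.H X →ₗ[W.K] W.H Y} {a' : W.H Y →ₗ[W.K] W.H X} (h : Adj W a a')
    (ha : Ev W a) (ha' : Ev W a') : Adj W a' a := by
  intro x y
  refine gr_induction (W.isInternal Y)
    (p := fun x => W.tr X (a' x * y) = W.tr Y (x * a y)) ?_ ?_ x
  · intro i x hx
    refine gr_induction (W.isInternal X)
      (p := fun y => W.tr X (a' x * y) = W.tr Y (x * a y)) ?_ ?_ y
    · intro j y hy
      rw [PH.comm (ha' _ _ (PH.of hx)) (PH.of hy), map_smul, ← h,
        PH.comm (ha _ _ (PH.of hy)) (PH.of hx), map_smul, smul_smul, mul_comm i j, ← pow_add,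
        ← two_mul, pow_mul]
      simp
    · intro b c hb hc; rw [mul_add, map_add, hb, hc, map_add, mul_add, map_add]
  · intro b c hb hc; rw [map_add, add_mul, map_add, hb, hc, add_mul, map_add]

/-- inverses of operators of the system -/
lemma inv_mem (S : Sys W) {a N : Module.End W.K (W.H X)} (ha : a ∈ S.Op X X)
    (h : a * N = 1) : N ∈ S.Op X X := by
  have h' : N * a = 1 := by
    exact mul_eq_one_comm.1 h
  set L : S.Op X X →ₗ[W.K] S.Op X X := LinearMap.restrict (p := S.Op X X) (q := S.Op X X)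
    (LinearMap.mulLeft W.K a) (fun w hw => Sys.Op.comp ha hw) with hL
  have hinj : Function.Injective L := by
    intro w w' hw
    have h1 : a * (w : Module.End W.K (W.H X)) = a * w' := congrArg Subtype.val hw
    apply Subtype.ext
    calc (w : Module.End W.K (W.H X)) = N * (a * w) := by rw [← mul_assoc, h', one_mul]
      _ = w' := by rw [h1, ← mul_assoc, h', one_mul]
  obtain ⟨w, hw⟩ := (LinearMap.injective_iff_surjective (f := L)).1 hinj
    (⟨1, Sys.Op.id⟩ : S.Op X X)
  have h1 : a * (w : Module.End W.K (W.H X)) = 1 := congrArg Subtype.val hw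
  have h2 : N = w := by
    calc N = N * (a * w) := by rw [h1, mul_one]
      _ = w := by rw [← mul_assoc, h', one_mul]
  rw [h2]
  exact w.2

variable {B : Type} [Fintype B] [DecidableEq B] {v : Module.Basis B W.K (W.H X)} {S : Sys W}

lemma PP_two (M : Matrix B B W.K) :
    PP v (Det.prj X 1) (t2 M) = ∑ a, ∑ b, M a b • (xp W (v a) (v b) : W.H (X.prod X)) := by
  rw [PP_prj]
  rw [← Fintype.sum_prod_type' (f := fun a b => M a b • (xp W (v a) (v b) : W.H (X.prod X)))]
  refine Fintype.sum_equiv (finTwoArrowEquiv B) _ _ fun I => ?_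
  simp only [t2, finTwoArrowEquiv, Equiv.coe_fn_mk]
  rfl

/-- parity of the form -/
lemma qM_par {uu : Module.End W.K (W.H X)} {d : B → ℕ} (hd : ∀ b, v b ∈ W.gr X (d b))
    (hu : Ev W uu) {a b : B} (h : d a % 2 ≠ d b % 2) : qM v uu a b = 0 :=
  PH.tr_odd (PH.mul (PH.of (hd a)) (hu _ _ (PH.of (hd b)))) (by omega)

lemma kap_par {d : B → ℕ} {q κ : Matrix B B W.K}
    (hq : ∀ a b, d a % 2 ≠ d b % 2 → q a b = 0) (hqκ : q * κ = 1) {a b : B}
    (h : d a % 2 ≠ d b % 2) : κ a b = 0 := by
  set P : Matrix B B W.K := Matrix.diagonal fun b => if d b % 2 = 1 then 1 else 0 with hP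
  have h1 : q * P = P * q := by
    ext i j
    rw [hP, Matrix.mul_diagonal, Matrix.diagonal_mul]
    by_cases hij : d i % 2 = d j % 2
    · rw [hij, mul_comm]
    · rw [hq i j hij, zero_mul, mul_zero]
  have hκq : κ * q = 1 := mul_eq_one_comm.1 hqκ
  have h2 : κ * P = P * κ := by
    calc κ * P = κ * P * (q * κ) := by rw [hqκ, Matrix.mul_one]
      _ = κ * (P * q) * κ := by simp only [Matrix.mul_assoc]
      _ = κ * (q * P) * κ := by rw [h1]
      _ = (κ * q) * (P * κ) := by simp only [Matrix.mul_assoc]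
      _ = P * κ := by rw [hκq, Matrix.one_mul]
  have h3 := congrFun (congrFun h2 a) b
  rw [hP, Matrix.mul_diagonal, Matrix.diagonal_mul] at h3
  by_cases ha : d a % 2 = 1
  · have hb : ¬ d b % 2 = 1 := fun hb => h (ha.trans hb.symm)
    rw [if_pos ha, if_neg hb, mul_zero, one_mul] at h3
    exact h3.symm
  · have hb : d b % 2 = 1 := by omega
    rw [if_neg ha, if_pos hb, mul_one, zero_mul] at h3
    exact h3

/-- **The inverse of the form is a tensor of the system.** -/
theorem kap_mem {d : B → ℕ} (hd : ∀ b, v b ∈ W.gr X (d b)) {uu : Module.End W.K (W.H X)}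
    (hu : uu ∈ S.Op X X) {κ : Matrix B B W.K} (hqκ : qM v uu * κ = 1) : t2 κ ∈ Cs S v 2 := by
  rw [mem_Cs_succ]
  obtain ⟨c, hc0⟩ : ∃ c : W.H (X.prod X), c = PP v (Det.prj X 1) (t2 κ) := ⟨_, rfl⟩
  have hc : c = ∑ a, ∑ b, κ a b • (xp W (v a) (v b) : W.H (X.prod X)) :=
    hc0.trans (PP_two κ)
  rw [← hc0]
  change c ∈ S.C (X.prod X)
  obtain ⟨u', hu'm, hu'⟩ := Sys.Op.exists_adj hu
  have hadj : Adj W u' uu := adj_symm hu' (Sys.Op.ev hu) (Sys.Op.ev hu'm)
  have hκq : κ * qM v uu = 1 := mul_eq_one_comm.1 hqκ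
  set N : Module.End W.K (W.H X) := W.corr c with hN
  have hNv : ∀ e, N (v e) = ∑ a, ∑ b, ((-1 : W.K) ^ (d e) * (κ a b * W.tr X (v a * v e))) • v b := by
    intro e
    have h0 : N (v e) = ∑ a, ∑ b, κ a b • W.corr (xp W (v a) (v b)) (v e) := by
      rw [hN, hc]
      have h1 : ∀ y : W.H (X.prod X), W.corr y (v e) = (corrL W X X y) (v e) := fun y => rfl
      rw [h1, map_sum, LinearMap.sum_apply]
      refine Finset.sum_congr rfl fun a _ => ?_
      rw [map_sum, LinearMap.sum_apply]
      refine Finset.sum_congr rfl fun b _ => ?_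
      rw [map_smul, LinearMap.smul_apply]
      rfl
    rw [h0]
    refine Finset.sum_congr rfl fun a _ => Finset.sum_congr rfl fun b _ => ?_
    rw [corr_xp (W := W) (v a) (PH.of (hd b)) (PH.of (hd e)), smul_smul]
    by_cases hab : d a % 2 = d b % 2
    · by_cases hae : d a % 2 = d e % 2
      · have h2 : (-1 : W.K) ^ (d b * d e) = (-1 : W.K) ^ (d e) := by
          apply neg_pow_congr
          rw [Nat.mul_mod, ← hab, hae]
          rcases Nat.mod_two_eq_zero_or_one (d e) with h | h <;> simp [h]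
        rw [h2]
        congr 1
        ring
      · have h2 : W.tr X (v a * v e) = 0 :=
          PH.tr_odd (PH.mul (PH.of (hd a)) (PH.of (hd e))) (by omega)
        rw [h2]
        simp
    · rw [kap_par (q := qM v uu) (fun a b h => qM_par hd (Sys.Op.ev hu) h) hqκ hab]
      simp
  have hform : ∀ e f, W.tr X (N (v e) * uu (v f)) = W.tr X (v e * v f) := by
    intro e f
    have h1 : W.tr X (N (v e) * uu (v f)) =
        ∑ a, (-1 : W.K) ^ (d e) * W.tr X (v a * v e) * (κ * qM v uu) a f := by
      rw [hNv, Finset.sum_mul, map_sum]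
      refine Finset.sum_congr rfl fun a _ => ?_
      rw [Finset.sum_mul, map_sum, Matrix.mul_apply, Finset.mul_sum]
      refine Finset.sum_congr rfl fun b _ => ?_
      rw [smul_mul_assoc, map_smul, smul_eq_mul]
      simp only [qM]
      ring
    rw [h1, hκq, Finset.sum_eq_single f]
    · rw [Matrix.one_apply_eq, mul_one]
      by_cases hef : d e % 2 = d f % 2
      · rw [PH.comm (PH.of (hd e)) (PH.of (hd f)), map_smul, smul_eq_mul]
        congr 1
        apply neg_pow_congr
        rw [Nat.mul_mod, ← hef]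
        rcases Nat.mod_two_eq_zero_or_one (d e) with h | h <;> simp [h]
      · rw [PH.tr_odd (PH.mul (PH.of (hd f)) (PH.of (hd e))) (by omega),
          PH.tr_odd (PH.mul (PH.of (hd e)) (PH.of (hd f))) (by omega), mul_zero]
    · intro a _ ha
      rw [Matrix.one_apply_ne ha, mul_zero]
    · intro h; exact absurd (Finset.mem_univ _) h
  have hform' : ∀ x y, W.tr X (N x * uu y) = W.tr X (x * y) := by
    intro x y
    rw [← v.sum_repr x, ← v.sum_repr y]
    simp only [map_sum, map_smul, Finset.sum_mul_sum, smul_mul_smul_comm, hform]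
  have hone : u' * N = 1 := by
    apply LinearMap.ext
    intro x
    apply W.tr_ext
    intro y
    rw [Module.End.mul_apply, hadj, hform', Module.End.one_apply]
  have hNm := inv_mem S hu'm hone
  obtain ⟨c', hc', hcc⟩ := Sys.mem_Op.1 hNm
  have : c' = c := corr_ext (hcc.trans hN)
  rw [← this]
  exact hc'

end Pool.Agent.Q67.TG
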