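import Pool.Agent.Q67.TG.Cpx2
import Pool.Agent.Y133.Half.PairPred

/-!
# The index of the Hodge classes on the powers of a variety
-/

set_option autoImplicit false
set_option linter.unusedSectionVars false

open CategoryTheory AlgebraicGeometry TensorProduct

universe u

namespace Pool.Agent.Q67.TG

open Pool.Agent.H914 Pool.Agent.H914.VarClass Pool.Agent.H914.VarClass.Obj
  Pool.Agent.H914.WeilCohomology
open Pool.Agent.Y133.Half hiding prj extOp_xp
open Pool.Agent.Q67.Det Pool.Agent.Q67.TK
open Pool.Agent.Y121.AH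
open scoped Matrix

variable {k : Type u} [Field k] {𝒱 : VarClass k} {ops : CycleOps 𝒱} {T : HodgeTheory ops}
  {X Y Z : 𝒱.Obj}

lemma charZero_K (T : HodgeTheory ops) : CharZero T.W.K :=
  (algebraMap T.W.K ℂ).charZero

lemma real_K (T : HodgeTheory ops) (r : T.W.K) :
    star (algebraMap T.W.K ℂ r) = algebraMap T.W.K ℂ r := by
  obtain ⟨q, hq⟩ := T.rat r
  rw [← hq, map_ratCast]
  simp

/-- Data for a variety with a polarisation in a system of classes. -/
structure PolData (T : HodgeTheory ops) (S : Sys T.W) (X : 𝒱.Obj) where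
  le : ∀ Z : 𝒱.Obj, S.C Z ≤ (hodgeSys T).C Z
  uu : Module.End T.W.K (T.W.H X)
  mem : uu ∈ S.Op X X
  odd : oddP T.W X ∈ S.Op X X
  pol : Pol T X uu

namespace PolData

variable {S : Sys T.W} (P : PolData T S X)

section

variable {n : ℕ} {v : Module.Basis (Fin n) T.W.K (T.W.H X)} {d : Fin n → ℕ}
  (hd : ∀ b, v b ∈ T.W.gr X (d b))

include P

lemma Cs_le (m : ℕ) : Cs S v m ≤ Cs (hodgeSys T) v m :=
  fun _ hF Z f => P.le Z (hF Z f)

open scoped ComplexOrder in
lemma det_ne : (qM v P.uu).det ≠ 0 := by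
  intro h0
  have h1 := posDef_of_pol (v := v) P.pol
  have h2 : ((cM v)ᵀ * upM (qM v P.uu)).det = 0 := by
    rw [Matrix.det_mul]
    have h3 : (upM (qM v P.uu) : Matrix (Fin n) (Fin n) ℂ).det = 0 := by
      have h4 : (upM (qM v P.uu) : Matrix (Fin n) (Fin n) ℂ).det =
          algebraMap T.W.K ℂ (qM v P.uu).det := (RingHom.map_det _ _).symm
      rw [h4, h0, map_zero]
    rw [h3, mul_zero]
  exact (((Matrix.isUnit_iff_isUnit_det _).1 h1.isUnit).ne_zero) h2

lemma q_kap : qM v P.uu * (qM v P.uu)⁻¹ = 1 :=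
  Matrix.mul_nonsing_inv _ (isUnit_iff_ne_zero.2 (P.det_ne))

include hd

/-- The rational system of tensors. -/
noncomputable def rsys : RSys (Fin n) T.W.K (qM v P.uu) where
  C := Cs S v
  one := mem_Cs_zero _
  perm := by
    intro m σ F hF
    have := charZero_K T
    exact Cs_perm hd P.odd σ hF
  tens := Cs_tens
  contr := by
    intro m n F G hF hG
    have := charZero_K T
    exact Cs_contr hd P.odd P.mem hF hG

/-- **The infinitesimal criterion**: if every operator which kills the classes of the system on all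
powers kills the Hodge classes on all powers, the classes of the system are a positive proportion
of the Hodge classes on the even powers. -/
theorem bound_aux (hinf : ∀ A : Module.End T.W.K (T.W.H X),
    (∀ m, ∀ c ∈ S.C (pw X m), derOp A m c = 0) →
    ∀ m, ∀ c ∈ (hodgeSys T).C (pw X m), derOp A m c = 0) :
    ∃ c : ℝ, 0 < c ∧ ∀ m, c * Module.finrank T.W.K ((hodgeSys T).C (pw X (2 * m + 1))) ≤
      Module.finrank T.W.K (S.C (pw X (2 * m + 1))) := by
  have := charZero_K T
  obtain ⟨c, hc, h⟩ := (P.rsys hd).bound (C := cM v) (κ := (qM v P.uu)⁻¹) (real_K T) P.q_kap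
    (posDef_of_pol P.pol) (fun m F hF => cM_fix v (P.Cs_le m hF)) (kap_mem hd P.mem P.q_kap)
    (Cs (hodgeSys T) v) (by
      intro A hA
      have h1 : ∀ m, ∀ c ∈ S.C (pw X m), derOp (Matrix.toLin v v A) m c = 0 := by
        refine (mem_Ann_Cs (v := v)).1 ?_
        intro m F hF
        rw [mt, LinearMap.toMatrix_toLin]
        exact hA m F hF
      have h2 := (mem_Ann_Cs (v := v)).2 (hinf _ h1)
      rw [mt, LinearMap.toMatrix_toLin] at h2
      exact h2)
  refine ⟨c, hc, fun m => ?_⟩
  have h1 := h (m + 1)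
  have e1 : Module.finrank T.W.K (Cs (hodgeSys T) v (2 * (m + 1))) =
      Module.finrank T.W.K ((hodgeSys T).C (pw X (2 * m + 1))) :=
    finrank_Cs (v := v) (S := hodgeSys T) (m := 2 * m + 1)
  have e2 : Module.finrank T.W.K ((P.rsys hd).C (2 * (m + 1))) =
      Module.finrank T.W.K (S.C (pw X (2 * m + 1))) :=
    finrank_Cs (v := v) (S := S) (m := 2 * m + 1)
  rw [e1, e2] at h1
  exact h1

end

end PolData

end Pool.Agent.Q67.TG
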