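import Pool.Agent.Q67.TG.Main2
import Pool.Agent.Q67.TK.PSer

/-!
# Finite generation implies the infinitesimal criterion
-/

set_option autoImplicit false
set_option linter.unusedSectionVars false

open CategoryTheory AlgebraicGeometry TensorProduct

universe u v

namespace Pool.Agent.Q67.TG

open Pool.Agent.H914 Pool.Agent.H914.VarClass Pool.Agent.H914.VarClass.Obj
  Pool.Agent.H914.WeilCohomology
open Pool.Agent.Y133.Half hiding prj extOp_xp
open Pool.Agent.Q67.Det Pool.Agent.Q67.TK
open Pool.Agent.Y121.AH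
open scoped Matrix

variable {k : Type u} [Field k] {𝒱 : VarClass k} {ops : CycleOps 𝒱}

section mt

variable {W : WeilCohomology.{u, v} ops} {X : 𝒱.Obj} {B : Type} [Fintype B] [DecidableEq B]
  (v : Module.Basis B W.K (W.H X))

/-- tensors and classes -/
noncomputable def PPe (m : ℕ) : ((Fin (m + 1) → B) → W.K) ≃ₗ[W.K] W.H (pw X m) :=
  LinearEquiv.ofBijective (PPL v m) ⟨fun _ _ h => PP_inj v h, fun c => PP_surj v c⟩

lemma PPe_apply {m : ℕ} (F : (Fin (m + 1) → B) → W.K) : PPe v m F = PP v (Det.prj X m) F := rfl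

/-- The matrix of a map between the cohomology groups of powers. -/
noncomputable def mtP {m n : ℕ} (φ : W.H (pw X m) →ₗ[W.K] W.H (pw X n)) :
    Matrix (Fin (n + 1) → B) (Fin (m + 1) → B) W.K :=
  LinearMap.toMatrix' ((PPe v n).symm.toLinearMap ∘ₗ φ ∘ₗ (PPe v m).toLinearMap)

lemma mtP_spec {m n : ℕ} (φ : W.H (pw X m) →ₗ[W.K] W.H (pw X n)) (F : (Fin (m + 1) → B) → W.K) :
    PP v (Det.prj X n) ((mtP v φ).mulVec F) = φ (PP v (Det.prj X m) F) := by
  rw [mtP, ← Matrix.toLin'_apply, Matrix.toLin'_toMatrix']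
  exact (PPe v n).apply_symm_apply _

lemma mtP_comm {m n : ℕ} {φ : W.H (pw X m) →ₗ[W.K] W.H (pw X n)} {A : Module.End W.K (W.H X)}
    (h : ∀ x, derOp A n (φ x) = φ (derOp A m x)) :
    mtP v φ * dM (m + 1) (mt v A) = dM (n + 1) (mt v A) * mtP v φ := by
  have h1 : ∀ F : (Fin (m + 1) → B) → W.K, (mtP v φ * dM (m + 1) (mt v A)).mulVec F =
      (dM (n + 1) (mt v A) * mtP v φ).mulVec F := by
    intro F
    apply PP_inj v
    rw [← Matrix.mulVec_mulVec, ← Matrix.mulVec_mulVec, mtP_spec, ← derOp_PP, ← derOp_PP,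
      mtP_spec, h]
  exact Matrix.mulVec_injective (funext h1)

end mt

variable {T : HodgeTheory ops} {X Y Z : 𝒱.Obj}

lemma Cs_tpow {S : Sys T.W} {n : ℕ} {v : Module.Basis (Fin n) T.W.K (T.W.H X)} {m : ℕ}
    {F : (Fin m → Fin n) → T.W.K} (hF : F ∈ Cs S v m) : ∀ k, tpow F k ∈ Cs S v (len m k)
  | 0 => mem_Cs_zero _
  | k + 1 => Cs_tens (Cs_tpow hF k) hF

/-- **Finite generation implies the infinitesimal criterion.** -/
theorem kill_of_generated {Q : ClassPred T.W} (P : PolData T Q.sys X) {N : ℕ∞}
    (hgen : GeneratedOver T.W Q.P (hodgePred T).P X N) {A : Module.End T.W.K (T.W.H X)}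
    (hA : ∀ m, ∀ c ∈ Q.sys.C (pw X m), derOp A m c = 0) :
    ∀ m, ∀ c ∈ (hodgeSys T).C (pw X m), derOp A m c = 0 := by
  classical
  have hch := charZero_K T
  obtain ⟨n, v, d, hd⟩ := exists_homog_basis T.W X
  obtain ⟨r, c, -, -, hg⟩ := hgen
  set Ci : ∀ i : Fin r, (Fin ((c i).1 + 1) → Fin n) → T.W.K := fun i =>
    (PPe v (c i).1).symm (c i).2 with hCi
  have hCi' : ∀ i, PP v (Det.prj X (c i).1) (Ci i) = (c i).2 := fun i =>
    (PPe v (c i).1).apply_symm_apply _
  set f : Option (Σ i : Fin r, (Fin ((c i).1 + 1) → Fin n)) → PowerSeries T.W.K := fun o =>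
    match o with
    | none => 1
    | some p => gs ((c p.1).1 + 1) (mt v A) (Ci p.1) p.2 with hf
  set Φ : Submodule T.W.K (PowerSeries T.W.K) := Submodule.span T.W.K (Set.range f) with hΦ
  have hfin : Module.Finite T.W.K Φ := FiniteDimensional.span_of_finite T.W.K (Set.finite_range f)
  have h1Φ : (1 : PowerSeries T.W.K) ∈ Φ := Submodule.subset_span ⟨none, rfl⟩
  have hCΦ : ∀ i J, gs ((c i).1 + 1) (mt v A) (Ci i) J ∈ Φ := fun i J =>
    Submodule.subset_span ⟨some ⟨i, J⟩, rfl⟩
  -- the exponentials of Hodge classes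
  have key : ∀ l, ∀ F ∈ Cs (hodgeSys T) v l, ∀ I, gs l (mt v A) F I ∈ Φ := by
    intro l F hF I
    cases l with
    | zero =>
      have h1 : (dM 0 (mt v A)).mulVec F = 0 := by
        funext I
        simp [dM_mulVec]
      rw [gs_of_kill h1]
      exact Submodule.smul_mem _ _ h1Φ
    | succ m =>
      have h1 := mem_Cs_succ.1 hF
      have h2 : ∀ y ∈ (hodgeSys T).C (pw X m), ∀ G, PP v (Det.prj X m) G = y →
          ∀ I, gs (m + 1) (mt v A) G I ∈ Φ := by
        intro y hy
        have h3 : y ∈ genOver T.W Q.P X c m := by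
          refine ClassPred.sp_ind (Q := hodgePred T) (q := fun y => y ∈ genOver T.W Q.P X c m)
            ?_ ?_ ?_ hy
          · intro j x hx; exact hg m j x hx
          · exact Submodule.zero_mem _
          · intro a b ha hb; exact Submodule.add_mem _ ha hb
        clear hy
        induction h3 using Submodule.span_induction with
        | mem y hy =>
          intro G hG I
          rcases hy with ⟨j, hj⟩ | hy
          · have h4 : derOp A m y = 0 := hA m y (ClassPred.sp_of (Q := Q) hj)
            have h5 : (dM (m + 1) (mt v A)).mulVec G = 0 := by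
              rw [← hG, derOp_PP] at h4
              exact PP_inj v (h4.trans (PP_zero _).symm)
            rw [gs_of_kill h5]
            exact Submodule.smul_mem _ _ h1Φ
          · obtain ⟨i, hi⟩ := Set.mem_iUnion.1 hy
            obtain ⟨j, z, hz, hzy⟩ := hi
            have hφ : T.W.corr z ∈ Q.sys.Op (pw X (c i).1) (pw X m) :=
              Sys.Op.corr (ClassPred.sp_of (Q := Q) hz)
            have h4 : G = (mtP v (T.W.corr z)).mulVec (Ci i) := by
              apply PP_inj v
              rw [hG, mtP_spec, hCi']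
              exact hzy.symm
            rw [h4, gs_comm (mtP_comm v (P.comm_corr hA hφ))]
            exact Submodule.sum_mem _ fun J _ => Submodule.smul_mem _ _ (hCΦ i J)
        | zero =>
          intro G hG I
          have h4 : G = 0 := PP_inj v (hG.trans (PP_zero _).symm)
          rw [h4, gs_zero]
          exact Submodule.zero_mem _
        | add x y _ _ hx hy =>
          intro G hG I
          obtain ⟨G1, hG1⟩ := PP_surj v x
          obtain ⟨G2, hG2⟩ := PP_surj v y
          have h4 : G = G1 + G2 := by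
            apply PP_inj v
            rw [hG, PP_add, hG1, hG2]
          rw [h4, gs_add]
          exact Submodule.add_mem _ (hx G1 hG1 I) (hy G2 hG2 I)
        | smul a x _ hx =>
          intro G hG I
          obtain ⟨G1, hG1⟩ := PP_surj v x
          have h4 : G = a • G1 := by
            apply PP_inj v
            rw [hG, PP_smul, hG1]
          rw [h4, gs_smul]
          exact Submodule.smul_mem _ _ (hx G1 hG1 I)
      exact h2 _ h1 F rfl I
  intro m y hy
  obtain ⟨F, rfl⟩ := PP_surj v y
  have hF : F ∈ Cs (hodgeSys T) v (m + 1) := mem_Cs_succ.2 hy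
  have h1 : (dM (m + 1) (mt v A)).mulVec F = 0 := by
    apply kill_of_const
    intro I
    apply const_of_pow (Φ := Φ)
    intro k
    rw [← gs_tpow]
    exact key _ _ (Cs_tpow hF k) _
  rw [derOp_PP, h1, PP_zero]

end Pool.Agent.Q67.TG
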