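import Pool.Agent.Q67.TG.Main3

/-!
# Nondegeneracy, and the criterion on the fourth power
-/

set_option autoImplicit false
set_option linter.unusedSectionVars false

open CategoryTheory AlgebraicGeometry TensorProduct

universe u v

namespace Pool.Agent.Q67.TG

open Pool.Agent.H914 Pool.Agent.H914.VarClass Pool.Agent.H914.VarClass.Obj
  Pool.Agent.H914.WeilCohomology
open Pool.Agent.Y133.Half hiding prj extOp_xp
open Pool.Agent.Q67.Det Pool.Agent.Q67.TK
open Pool.Agent.Y121.AH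
open scoped Matrix

variable {k : Type u} [Field k] {𝒱 : VarClass k} {ops : CycleOps 𝒱}
variable {T : HodgeTheory ops} {X Y Z : 𝒱.Obj}

namespace PolData

variable {S : Sys T.W} (P : PolData T S X)

section

variable {n : ℕ} {v : Module.Basis (Fin n) T.W.K (T.W.H X)} {d : Fin n → ℕ}
  (hd : ∀ b, v b ∈ T.W.gr X (d b))

include P

lemma tr_Eop_PP (hd : ∀ b, v b ∈ T.W.gr X (d b)) {m : ℕ} (F G : (Fin (m + 1) → Fin n) → T.W.K) :
    T.W.tr (pw X m) (Eop T.W X m (PP v (Det.prj X m) F) *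
      famOp T.W X m (fun _ => P.uu) (PP v (Det.prj X m) G)) =
      F ⬝ᵥ (pM (m + 1) (qM v P.uu)).mulVec G := by
  have := charZero_K T
  rw [PP_prj, PP_prj, map_sum, map_sum, Finset.sum_mul_sum, map_sum, dotProduct]
  refine Finset.sum_congr rfl fun I _ => ?_
  rw [map_sum, Matrix.mulVec, dotProduct, Finset.mul_sum]
  refine Finset.sum_congr rfl fun J _ => ?_
  rw [map_smul, map_smul, famOp_ten, smul_mul_smul_comm, map_smul, smul_eq_mul,
    tr_Eop_ten (d := fun i => d (I i)) (d' := fun i => d (J i))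
      (fun i => PH.of (hd (I i))) (fun i => (Sys.Op.ev P.mem) _ _ (PH.of (hd (J i))))]
  simp only [pM, qM]
  ring

open scoped ComplexOrder in
/-- The pairing on the classes of the system on the powers is nondegenerate. -/
theorem nondeg_pw (m : ℕ) : Sys.Nondeg S (pw X m) := by
  have := charZero_K T
  intro x hx hxy
  obtain ⟨n, v, d, hd⟩ := exists_homog_basis T.W X
  obtain ⟨F, rfl⟩ := PP_surj v x
  obtain ⟨E', hE', hadj⟩ := Sys.Op.exists_adj (Eop_mem S P.odd m)
  have h1 : F ⬝ᵥ (pM (m + 1) (qM v P.uu)).mulVec F = 0 := by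
    rw [← P.tr_Eop_PP hd, hadj]
    exact hxy _ (Sys.Op.apply (S := S) (T := S) (fun _ => le_rfl) hE'
      (Sys.Op.apply (S := S) (T := S) (fun _ => le_rfl) (famOp_mem S fun _ => P.mem) hx))
  obtain ⟨g, hg⟩ := exists_sqrt (posDef_of_pol (v := v) P.pol)
  have hpos := posDef_of_pol (v := v) P.pol
  have hMu : IsUnit ((cM v)ᵀ * upM (qM v P.uu)).det :=
    (Matrix.isUnit_iff_isUnit_det _).1 hpos.isUnit
  have hgu : IsUnit g.det := by
    have h : ((cM v)ᵀ * upM (qM v P.uu)).det = star g.det * g.det := by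
      rw [hg, Matrix.det_mul, Matrix.det_conjTranspose]
    rw [h] at hMu
    exact isUnit_of_mul_isUnit_right hMu
  have hfix : (pM (m + 1) (cM v)).mulVec (up F) = up F :=
    cM_fix v (P.Cs_le _ (mem_Cs_succ.2 hx))
  have h2 : star ((pM (m + 1) g).mulVec (up F)) ⬝ᵥ (pM (m + 1) g).mulVec (up F) = 0 := by
    rw [Matrix.star_mulVec, ← Matrix.dotProduct_mulVec, Matrix.mulVec_mulVec, pM_conjTranspose,
      ← pM_mul, ← hg, pM_mul, star_up (real_K T), ← Matrix.mulVec_mulVec,
      Matrix.dotProduct_mulVec, ← pM_transpose, Matrix.vecMul_transpose, hfix, ← upM_pM,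
      ← up_mulVec]
    have h3 : up F ⬝ᵥ up ((pM (m + 1) (qM v P.uu)).mulVec F) =
        algebraMap T.W.K ℂ (F ⬝ᵥ (pM (m + 1) (qM v P.uu)).mulVec F) := by
      simp only [dotProduct, up, map_sum, map_mul]
    rw [h3, h1, map_zero]
  have h3 : (pM (m + 1) g).mulVec (up F) = 0 := dotProduct_star_self_eq_zero.1 h2
  have h4 : up F = 0 := by
    apply pM_mulVec_injective (g := g) (g' := g⁻¹) (Matrix.nonsing_inv_mul _ hgu) (m + 1)
    change (pM (m + 1) g).mulVec (up F) = (pM (m + 1) g).mulVec 0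
    rw [h3, Matrix.mulVec_zero]
  have h5 : F = 0 := up_injective (h4.trans up_zero.symm)
  rw [h5, PP_zero]

omit P in
lemma finrank_Op (R : Sys T.W) : Module.finrank T.W.K (R.Op X X) =
    Module.finrank T.W.K (R.C (X.prod X)) := by
  symm
  refine LinearEquiv.finrank_eq (LinearEquiv.ofBijective (R.corrS X X)
    ⟨fun c c' h => Subtype.ext (corr_ext (congrArg Subtype.val h)), Sys.corrS_surjective⟩)

/-- An operator is given by a class of a system if and only if its tensor is a tensor of the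
system. -/
lemma op_iff {R : Sys T.W} (hSR : ∀ Z, S.C Z ≤ R.C Z) (hd : ∀ b, v b ∈ T.W.gr X (d b))
    (Y : Module.End T.W.K (T.W.H X)) :
    t2 (mt v Y * (qM v P.uu)⁻¹) ∈ Cs R v 2 ↔ Y ∈ R.Op X X := by
  have hκ : t2 (qM v P.uu)⁻¹ ∈ Cs R v 2 := fun Z f =>
    hSR Z (kap_mem hd P.mem P.q_kap Z f)
  have key : ∀ φ : Module.End T.W.K (T.W.H X), φ ∈ R.Op X X →
      t2 (mt v φ * (qM v P.uu)⁻¹) ∈ Cs R v 2 := by
    intro φ hφ
    have h2 := Cs_gM (v := v) (φ := ![φ, 1]) (S := R) (fun i => by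
      fin_cases i
      · exact hφ
      · exact Sys.Op.id) hκ
    have h3 : (fun i : Fin 2 => mt v ((![φ, 1] : Fin 2 → Module.End T.W.K (T.W.H X)) i)) =
        ![mt v φ, 1] := by
      funext i
      fin_cases i
      · rfl
      · exact mt_one
    rw [h3, gM_t2] at h2
    exact h2
  refine ⟨fun hY => ?_, key Y⟩
  set L : R.Op X X →ₗ[T.W.K] Cs R v 2 :=
    { toFun := fun φ => ⟨t2 (mt v (φ : Module.End T.W.K (T.W.H X)) * (qM v P.uu)⁻¹), key φ φ.2⟩
      map_add' := fun φ ψ => by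
        apply Subtype.ext
        change t2 (mt v ((φ : Module.End T.W.K (T.W.H X)) + ψ) * (qM v P.uu)⁻¹) = _
        rw [mt, map_add, Matrix.add_mul]
        rfl
      map_smul' := fun c φ => by
        apply Subtype.ext
        change t2 (mt v (c • (φ : Module.End T.W.K (T.W.H X))) * (qM v P.uu)⁻¹) = _
        rw [mt, map_smul, Matrix.smul_mul]
        rfl } with hL
  have hcan : ∀ φ ψ : Module.End T.W.K (T.W.H X),
      t2 (mt v φ * (qM v P.uu)⁻¹) = t2 (mt v ψ * (qM v P.uu)⁻¹) → φ = ψ := by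
    intro φ ψ h
    have h1 := congrArg (· * qM v P.uu) (t2_injective h)
    simp only [Matrix.mul_assoc, mul_eq_one_comm.1 P.q_kap, Matrix.mul_one] at h1
    exact mt_inj h1
  have hinj : Function.Injective L := fun φ ψ h =>
    Subtype.ext (hcan _ _ (congrArg Subtype.val h))
  have hfr : Module.finrank T.W.K (R.Op X X) = Module.finrank T.W.K (Cs R v 2) := by
    rw [finrank_Op]
    exact (finrank_Cs (v := v) (S := R) (m := 1)).symm
  have hsurj : Function.Surjective L := by
    have h1 : Module.finrank T.W.K (LinearMap.range L) = Module.finrank T.W.K (Cs R v 2) := by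
      rw [LinearMap.finrank_range_of_inj hinj, hfr]
    exact LinearMap.range_eq_top.1 (Submodule.eq_top_of_finrank_eq h1)
  obtain ⟨φ, hφ⟩ := hsurj ⟨_, hY⟩
  have h1 := hcan _ _ (congrArg Subtype.val hφ)
  rw [← h1]
  exact φ.2

open scoped ComplexOrder in
/-- **The criterion on the fourth power.** -/
theorem kill_of_four
    (h4 : ∀ A : Module.End T.W.K (T.W.H X), (∀ m, ∀ c ∈ S.C (pw X m), derOp A m c = 0) →
      ∀ c ∈ (hodgeSys T).C (pw X 3), derOp A 3 c = 0)
    (hZ : ∀ A : Module.End T.W.K (T.W.H X), (∀ m, ∀ c ∈ S.C (pw X m), derOp A m c = 0) →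
      A ∈ (hodgeSys T).Op X X → (∀ φ ∈ (hodgeSys T).Op X X, A * φ = φ * A) →
      ∀ m, ∀ c ∈ (hodgeSys T).C (pw X m), derOp A m c = 0)
    {A : Module.End T.W.K (T.W.H X)} (hA : ∀ m, ∀ c ∈ S.C (pw X m), derOp A m c = 0) :
    ∀ m, ∀ c ∈ (hodgeSys T).C (pw X m), derOp A m c = 0 := by
  obtain ⟨n, v, d, hd⟩ := exists_homog_basis T.W X
  have hker : Cs (hodgeSys T) v = Ker (K := T.W.K) (zM v) := funext fun l => hodge_Cs v l
  have hpos := posDef_of_pol (v := v) P.pol
  have hMu : IsUnit ((cM v)ᵀ * upM (qM v P.uu)).det :=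
    (Matrix.isUnit_iff_isUnit_det _).1 hpos.isUnit
  have hCu : IsUnit (cM v).det := by
    rw [Matrix.det_mul, Matrix.det_transpose] at hMu
    exact isUnit_of_mul_isUnit_left hMu
  have htoLin : ∀ M : Matrix (Fin n) (Fin n) T.W.K, mt v (Matrix.toLin v v M) = M := fun M =>
    LinearMap.toMatrix_toLin v v M
  have hAnn : ∀ (R : Sys T.W) (M : Matrix (Fin n) (Fin n) T.W.K), M ∈ Ann (Cs R v) ↔
      ∀ m, ∀ c ∈ R.C (pw X m), derOp (Matrix.toLin v v M) m c = 0 := by
    intro R M
    rw [← mem_Ann_Cs (v := v), htoLin]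
    rfl
  have h := larsen (z := zM v) (C := cM v) (C' := (cM v)⁻¹) (q := qM v P.uu)
    (κ := (qM v P.uu)⁻¹) (real_K T) (Matrix.nonsing_inv_mul _ hCu)
    (fun l F hF => cM_fix v (by rw [hker]; exact hF)) P.q_kap hpos (𝒜 := Cs S v)
    (fun l => by rw [← hker]; exact P.Cs_le l) (kap_mem hd P.mem P.q_kap)
    (by
      intro M hM F hF
      rw [← hker] at hF
      have h1 := (mem_four (v := v) (S := hodgeSys T) (m := 3)
        (A := Matrix.toLin v v M)).2 (h4 _ ((hAnn S M).1 hM))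
      rw [htoLin] at h1
      exact h1 F hF)
    (by
      intro Y hY hYz hYc
      rw [← hker] at hYz hYc ⊢
      rw [hAnn]
      refine hZ _ ((hAnn S Y).1 hY) ?_ ?_
      · rw [← P.op_iff P.le hd, htoLin]; exact hYz
      · intro φ hφ
        rw [← P.op_iff P.le hd] at hφ
        apply mt_inj (v := v)
        rw [mt_mul, mt_mul, htoLin]
        exact hYc _ hφ)
  have h1 : mt v A ∈ Ann (Cs S v) := (mem_Ann_Cs (v := v)).2 hA
  have h2 := h h1
  rw [← hker] at h2
  exact (mem_Ann_Cs (v := v)).1 h2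

end

end PolData

end Pool.Agent.Q67.TG
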