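import Pool.Agent.Q67.TG.Main4

/-!
# The index is finite if and only if the infinitesimal criterion holds
-/

set_option autoImplicit false
set_option linter.unusedSectionVars false

open CategoryTheory AlgebraicGeometry TensorProduct Filter Topology

open scoped ENNReal

universe u v

namespace Pool.Agent.Q67.TG

open Pool.Agent.H914 Pool.Agent.H914.VarClass Pool.Agent.H914.VarClass.Obj
  Pool.Agent.H914.WeilCohomology
open Pool.Agent.Y133.Half hiding prj extOp_xp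
open Pool.Agent.Q67.Det Pool.Agent.Q67.TK
open Pool.Agent.Y121.AH
open scoped Matrix

variable {k : Type u} [Field k] {𝒱 : VarClass k} {ops : CycleOps 𝒱}
variable {T : HodgeTheory ops} {X Y Z : 𝒱.Obj}

/-- The operator kills the classes on all powers which lie in the system. -/
def KillsAll (S : Sys T.W) (X : 𝒱.Obj) (A : Module.End T.W.K (T.W.H X)) : Prop :=
  ∀ m, ∀ c ∈ S.C (pw X m), derOp A m c = 0

/-- A subsequence of bounded ratios. -/
lemma ne_top_of_bound {t s : ℕ → ℕ} {N : ℕ∞} (h : HasIndex t s N) (hs : ∀ n, 0 < s n) {c : ℝ}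
    (hc : 0 < c) (hb : ∀ m, c * t (2 * m + 1) ≤ s (2 * m + 1)) : N ≠ ⊤ := by
  have h1 : Tendsto (fun m : ℕ => 2 * m + 1) atTop atTop :=
    tendsto_atTop_mono (fun m => by simp only [id_eq]; omega) tendsto_id
  have h2 := h.comp h1
  have h3 : ∀ m : ℕ, ((t (2 * m + 1) : ℕ) : ℝ≥0∞) / (s (2 * m + 1) : ℕ) ≤
      (ENNReal.ofReal c)⁻¹ := by
    intro m
    have e0 : ((s (2 * m + 1) : ℕ) : ℝ≥0∞) ≠ 0 := by exact_mod_cast (hs _).ne'
    have e1 : ((s (2 * m + 1) : ℕ) : ℝ≥0∞) ≠ ⊤ := ENNReal.natCast_ne_top _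
    have c0 : ENNReal.ofReal c ≠ 0 := (ENNReal.ofReal_pos.2 hc).ne'
    have c1 : ENNReal.ofReal c ≠ ⊤ := ENNReal.ofReal_ne_top
    rw [ENNReal.div_le_iff e0 e1, ← ENNReal.div_eq_inv_mul, ENNReal.le_div_iff_mul_le
      (Or.inl c0) (Or.inl c1), mul_comm]
    have h4 : ENNReal.ofReal (c * t (2 * m + 1)) ≤ ENNReal.ofReal (s (2 * m + 1) : ℝ) :=
      ENNReal.ofReal_le_ofReal (hb m)
    rwa [ENNReal.ofReal_mul hc.le, ENNReal.ofReal_natCast, ENNReal.ofReal_natCast] at h4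
  have h4 : (N : ℝ≥0∞) ≤ (ENNReal.ofReal c)⁻¹ := le_of_tendsto h2 (Eventually.of_forall h3)
  intro hN
  rw [hN] at h4
  have h5 : (ENNReal.ofReal c)⁻¹ = ⊤ := top_le_iff.1 h4
  rw [ENNReal.inv_eq_top] at h5
  exact (ENNReal.ofReal_pos.2 hc).ne' h5

/-- **The finiteness criteria for the index.** -/
theorem master {Q : ClassPred T.W}
    (hQR : ∀ {Z : 𝒱.Obj} {j : ℕ} {c : T.W.H Z}, Q.P Z j c → (hodgePred T).P Z j c)
    (P : PolData T Q.sys X) [Nontrivial (T.W.H X)] :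
    ∃ N : ℕ∞, 1 ≤ N ∧
      HasIndex (fun n => dimBy T.W (hodgePred T).P (pw X n)) (fun n => dimBy T.W Q.P (pw X n)) N ∧
      (N = 1 ↔ ∀ n j c, (hodgePred T).P (pw X n) j c → Q.P (pw X n) j c) ∧
      (N ≠ 1 → AtMostHalf (fun n => dimBy T.W Q.P (pw X n))
        (fun n => dimBy T.W (hodgePred T).P (pw X n))) ∧
      (N ≠ ⊤ → GeneratedOver T.W Q.P (hodgePred T).P X N) ∧
      (N ≠ ⊤ ↔ ∀ A : Module.End T.W.K (T.W.H X), KillsAll Q.sys X A →
        KillsAll (hodgeSys T) X A) ∧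
      (N ≠ ⊤ ↔ (∀ A : Module.End T.W.K (T.W.H X), KillsAll Q.sys X A →
          ∀ c ∈ (hodgeSys T).C (pw X 3), derOp A 3 c = 0) ∧
        (∀ A : Module.End T.W.K (T.W.H X), KillsAll Q.sys X A →
          A ∈ (hodgeSys T).Op X X → (∀ φ ∈ (hodgeSys T).Op X X, A * φ = φ * A) →
          KillsAll (hodgeSys T) X A)) := by
  obtain ⟨N, M, h1, -, hN, -, -, hN1, -, hhalf, -, hgen, -⟩ :=
    Q.tower (hodgePred T) hQR X P.nondeg_pw
  have hinf : N ≠ ⊤ ↔ ∀ A : Module.End T.W.K (T.W.H X), KillsAll Q.sys X A →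
      KillsAll (hodgeSys T) X A := by
    constructor
    · intro h A hA
      exact kill_of_generated P (hgen h) hA
    · intro h
      obtain ⟨n, v, d, hd⟩ := exists_homog_basis T.W X
      obtain ⟨c, hc, hb⟩ := P.bound_aux hd h
      exact ne_top_of_bound hN (fun n => Q.sys.finrank_pos_pw n) hc hb
  refine ⟨N, h1, hN, hN1, hhalf, hgen, hinf, hinf.trans ?_⟩
  constructor
  · intro h
    exact ⟨fun A hA => h A hA 3, fun A hA _ _ => h A hA⟩
  · rintro ⟨h4, hZ⟩ A hA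
    exact P.kill_of_four h4 hZ hA

end Pool.Agent.Q67.TG
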