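import Pool.Agent.Q67.TG.Main3

/-!
# Nondegenerate data in a general Weil cohomology theory
-/

set_option autoImplicit false
set_option linter.unusedSectionVars false

open CategoryTheory AlgebraicGeometry TensorProduct

universe u v

namespace Pool.Agent.Q67.TG

open Pool.Agent.H914 Pool.Agent.H914.VarClass Pool.Agent.H914.VarClass.Obj
  Pool.Agent.H914.WeilCohomology
open Pool.Agent.Y133.Half hiding prj extOp_xp
open Pool.Agent.Q67.Det Pool.Agent.Q67.TK
open scoped Matrix

variable {k : Type u} [Field k] {𝒱 : VarClass k} {ops : CycleOps 𝒱}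
  {W : WeilCohomology.{u, v} ops} {X Y Z : 𝒱.Obj}

/-- An injective operator and the odd projector, in a system of classes. -/
structure NDat (W : WeilCohomology.{u, v} ops) (S : Sys W) (X : 𝒱.Obj) where
  uu : Module.End W.K (W.H X)
  mem : uu ∈ S.Op X X
  odd : oddP W X ∈ S.Op X X
  inj : Function.Injective uu

lemma dM_t2_skew' {K B : Type*} [Field K] [Fintype B] [DecidableEq B] {κ X Y : Matrix B B K}
    (h : X * κ + κ * Xᵀ = 0) : (dM 2 X).mulVec (t2 (Y * κ)) = t2 ((X * Y - Y * X) * κ) := by
  rw [dM_t2]
  congr 1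
  have h1 : κ * Xᵀ = -(X * κ) := by rw [eq_neg_iff_add_eq_zero, add_comm]; exact h
  rw [Matrix.mul_assoc Y, h1, Matrix.sub_mul, Matrix.mul_neg, Matrix.mul_assoc, Matrix.mul_assoc,
    sub_eq_add_neg]

lemma det_ne_of_inj {n : ℕ} (v : Module.Basis (Fin n) W.K (W.H X)) {u : Module.End W.K (W.H X)}
    (hu : Function.Injective u) : (qM v u).det ≠ 0 := by
  intro h0
  obtain ⟨y, hy0, hy⟩ := Matrix.exists_mulVec_eq_zero_iff.2 h0
  apply hy0
  have h1 : u (∑ b, y b • v b) = 0 := by
    rw [← Module.forall_dual_apply_eq_zero_iff W.K]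
    intro φ
    obtain ⟨x, rfl⟩ := pd_surjective φ
    rw [pd_apply]
    have h2 : W.tr X ∘ₗ LinearMap.mulRight W.K (u (∑ b, y b • v b)) = 0 := by
      refine v.ext fun a => ?_
      change W.tr X (v a * u (∑ b, y b • v b)) = 0
      have h3 := congrFun hy a
      rw [Matrix.mulVec, dotProduct, Pi.zero_apply] at h3
      rw [← h3, map_sum, Finset.mul_sum, map_sum]
      refine Finset.sum_congr rfl fun b _ => ?_
      rw [map_smul, mul_smul_comm, map_smul, smul_eq_mul, mul_comm, qM]
    exact congrArg (fun f : W.H X →ₗ[W.K] W.K => f x) h2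
  have h2 : ∑ b, y b • v b = 0 := hu (h1.trans (map_zero u).symm)
  funext b
  exact Fintype.linearIndependent_iff.1 v.linearIndependent y h2 b

namespace NDat

variable {S : Sys W} (P : NDat W S X)

include P in
lemma q_kap {n : ℕ} {v : Module.Basis (Fin n) W.K (W.H X)} : qM v P.uu * (qM v P.uu)⁻¹ = 1 :=
  Matrix.mul_nonsing_inv _ (isUnit_iff_ne_zero.2 (det_ne_of_inj v P.inj))

variable [CharZero W.K] {A : Module.End W.K (W.H X)}
  (hA : ∀ m, ∀ c ∈ S.C (pw X m), derOp A m c = 0)

include P hA

section

variable {n : ℕ} {v : Module.Basis (Fin n) W.K (W.H X)} {d : Fin n → ℕ}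
  (hd : ∀ b, v b ∈ W.gr X (d b))

include hd

lemma kap_skew : mt v A * (qM v P.uu)⁻¹ + (qM v P.uu)⁻¹ * (mt v A)ᵀ = 0 := by
  have h1 := (mem_Ann_Cs (v := v)).2 hA 2 _ (kap_mem hd P.mem P.q_kap)
  rw [dM_t2] at h1
  exact t2_injective h1

lemma mt_comm {φ : Module.End W.K (W.H X)} (hφ : φ ∈ S.Op X X) :
    mt v A * mt v φ = mt v φ * mt v A := by
  have h1 : t2 (mt v φ * (qM v P.uu)⁻¹) ∈ Cs S v 2 := by
    have h2 := Cs_gM (v := v) (φ := ![φ, 1]) (S := S) (fun i => by
      fin_cases i
      · exact hφ
      · exact Sys.Op.id) (kap_mem hd P.mem P.q_kap)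
    have h3 : (fun i : Fin 2 => mt v ((![φ, 1] : Fin 2 → Module.End W.K (W.H X)) i)) =
        ![mt v φ, 1] := by
      funext i
      fin_cases i
      · rfl
      · exact mt_one
    rw [h3, gM_t2] at h2
    exact h2
  have h2 := (mem_Ann_Cs (v := v)).2 hA 2 _ h1
  rw [dM_t2_skew' (P.kap_skew hA hd)] at h2
  have h3 : (mt v A * mt v φ - mt v φ * mt v A) * (qM v P.uu)⁻¹ = 0 :=
    t2_injective h2
  have h4 := congrArg (· * qM v P.uu) h3
  simp only [Matrix.mul_assoc _ _ (qM v P.uu), mul_eq_one_comm.1 P.q_kap, Matrix.mul_one,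
    Matrix.zero_mul] at h4
  exact sub_eq_zero.1 h4

end

lemma comm_op {φ : Module.End W.K (W.H X)} (hφ : φ ∈ S.Op X X) : A * φ = φ * A := by
  obtain ⟨n, v, d, hd⟩ := exists_homog_basis W X
  apply mt_inj (v := v)
  rw [mt_mul, mt_mul, P.mt_comm hA hd hφ]

lemma ev_of_kill : Ev W A := by
  have hc := P.comm_op hA P.odd
  intro b x hx
  have h1 : oddP W X (A x) = if b % 2 = 1 then A x else 0 := by
    have h2 : oddP W X (A x) = A (oddP W X x) :=
      (congrArg (fun f : Module.End W.K (W.H X) => f x) hc).symm
    rw [h2, oddP_apply hx]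
    split_ifs <;> simp
  -- the parity components of `A x`
  have h3 : par (W.isInternal X) (A x) = (-1 : W.K) ^ b • A x := by
    have h4 : (2 : W.K) • oddP W X (A x) = A x - par (W.isInternal X) (A x) := by
      rw [oddP, LinearMap.smul_apply, smul_smul, mul_inv_cancel₀ two_ne_zero, one_smul]
      rfl
    have h5 : par (W.isInternal X) (A x) = A x - (2 : W.K) • oddP W X (A x) := by
      rw [h4]; abel
    rw [h5, h1]
    split_ifs with h
    · rw [Odd.neg_one_pow (Nat.odd_iff.2 h), two_smul, neg_one_smul]; abel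
    · rw [Even.neg_one_pow (Nat.even_iff.2 (by omega)), smul_zero, sub_zero, one_smul]
  -- a class with this property has the right parity
  have h6 : ∀ y : W.H X, par (W.isInternal X) y = (-1 : W.K) ^ b • y →
      y ∈ PH W X b := by
    intro y hy
    have h7 : ∀ i, proj (W.isInternal X) i y ∈ PH W X b := by
      intro i
      by_cases hi : i % 2 = b % 2
      · exact PH.of' hi (proj_mem _ _ _)
      · have h8 : ∀ y : W.H X, proj (W.isInternal X) i (par (W.isInternal X) y) =
            (-1 : W.K) ^ i • proj (W.isInternal X) i y := by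
          intro y
          refine gr_induction (W.isInternal X)
            (p := fun y => proj (W.isInternal X) i (par (W.isInternal X) y) =
              (-1 : W.K) ^ i • proj (W.isInternal X) i y) ?_ ?_ y
          · intro j a ha
            rw [PH.par (PH.of ha), map_smul]
            by_cases hij : j = i
            · rw [hij]
            · rw [proj_ne _ ha hij, smul_zero, smul_zero]
          · intro a b ha hb
            rw [map_add, map_add, ha, hb, map_add, smul_add]
        have h9 := h8 y
        rw [hy, map_smul] at h9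
        have h10 : proj (W.isInternal X) i y = 0 := by
          have h11 : ((-1 : W.K) ^ b - (-1 : W.K) ^ i) • proj (W.isInternal X) i y = 0 := by
            rw [sub_smul, h9, sub_self]
          refine (smul_eq_zero.1 h11).resolve_left ?_
          rcases Nat.mod_two_eq_zero_or_one b with hb | hb <;>
            rcases Nat.mod_two_eq_zero_or_one i with hi' | hi'
          · omega
          · rw [Even.neg_one_pow (Nat.even_iff.2 hb), Odd.neg_one_pow (Nat.odd_iff.2 hi')]
            norm_num
          · rw [Odd.neg_one_pow (Nat.odd_iff.2 hb), Even.neg_one_pow (Nat.even_iff.2 hi')]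
            norm_num
          · omega
        rw [h10]
        exact Submodule.zero_mem _
    have h4 := congrArg (fun f : Module.End W.K (W.H X) => f y)
      (sum_proj (W.isInternal X) (N := 2 * X.dim + 1) fun i hi => W.gr_eq_bot X i (by omega))
    simp only [LinearMap.sum_apply, Module.End.one_apply] at h4
    rw [← h4]
    exact Submodule.sum_mem _ fun i _ => h7 i
  exact h6 _ h3

lemma tr_skew (x y : W.H X) : W.tr X (A x * y) = -W.tr X (x * A y) := by
  obtain ⟨n, v, d, hd⟩ := exists_homog_basis W X
  have hq := P.kap_skew hA hd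
  have hqκ := P.q_kap (v := v)
  have hκq : (qM v P.uu)⁻¹ * qM v P.uu = 1 := mul_eq_one_comm.1 hqκ
  -- the form is invariant
  have h1 : qM v P.uu * mt v A + (mt v A)ᵀ * qM v P.uu = 0 := by
    have h2 : qM v P.uu * (mt v A * (qM v P.uu)⁻¹ + (qM v P.uu)⁻¹ * (mt v A)ᵀ) * qM v P.uu = 0 := by
      rw [hq, Matrix.mul_zero, Matrix.zero_mul]
    rw [Matrix.mul_add, Matrix.add_mul, ← Matrix.mul_assoc (qM v P.uu) (mt v A),
      Matrix.mul_assoc (qM v P.uu * mt v A), hκq, Matrix.mul_one,
      ← Matrix.mul_assoc (qM v P.uu) (qM v P.uu)⁻¹, hqκ, Matrix.one_mul] at h2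
    exact h2
  have h3 : ∀ a b, W.tr X (v a * P.uu (A (v b))) = -W.tr X (A (v a) * P.uu (v b)) := by
    intro a b
    have h4 := congrFun (congrFun h1 a) b
    rw [Matrix.add_apply, Matrix.mul_apply, Matrix.mul_apply, Matrix.zero_apply] at h4
    have e1 : ∑ c, qM v P.uu a c * mt v A c b = W.tr X (v a * P.uu (A (v b))) := by
      conv_rhs => rw [mt_spec v A b, map_sum, Finset.mul_sum, map_sum]
      refine Finset.sum_congr rfl fun c _ => ?_
      rw [map_smul, mul_smul_comm, map_smul, smul_eq_mul, mul_comm, qM]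
    have e2 : ∑ c, (mt v A)ᵀ a c * qM v P.uu c b = W.tr X (A (v a) * P.uu (v b)) := by
      conv_rhs => rw [mt_spec v A a, Finset.sum_mul, map_sum]
      refine Finset.sum_congr rfl fun c _ => ?_
      rw [smul_mul_assoc, map_smul, smul_eq_mul, Matrix.transpose_apply, qM]
    rw [e1, e2] at h4
    exact eq_neg_of_add_eq_zero_left h4
  have h4 : ∀ x y, W.tr X (x * P.uu (A y)) = -W.tr X (A x * P.uu y) := by
    intro x y
    rw [← v.sum_repr x, ← v.sum_repr y]
    simp only [map_sum, map_smul, Finset.sum_mul_sum, smul_mul_smul_comm, h3, ← Finset.sum_neg_distrib,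
      smul_neg]
  -- `uu` is bijective and commutes with `A`
  have h5 : Function.Injective P.uu := by
    rw [← LinearMap.ker_eq_bot, LinearMap.ker_eq_bot']
    intro y hy
    have h6 : (qM v P.uu).mulVec (fun b => v.repr y b) = 0 := by
      funext a
      rw [Matrix.mulVec, dotProduct, Pi.zero_apply]
      have h7 : W.tr X (v a * P.uu y) = ∑ b, qM v P.uu a b * v.repr y b := by
        conv_lhs => rw [← v.sum_repr y, map_sum, Finset.mul_sum, map_sum]
        refine Finset.sum_congr rfl fun b _ => ?_
        rw [map_smul, mul_smul_comm, map_smul, smul_eq_mul, mul_comm, qM]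
      rw [← h7, hy, mul_zero, map_zero]
    have h8 : (fun b => v.repr y b) = 0 := by
      have := congrArg (fun w => (qM v P.uu)⁻¹.mulVec w) h6
      simpa [Matrix.mulVec_mulVec, hκq] using this
    apply v.repr.injective
    ext b
    simpa using congrFun h8 b
  obtain ⟨w, rfl⟩ := (LinearMap.injective_iff_surjective.1 h5) y
  have hc := P.comm_op hA P.mem
  have h6 : A (P.uu w) = P.uu (A w) :=
    congrArg (fun f : Module.End W.K (W.H X) => f w) hc
  rw [h6, h4, neg_neg]

lemma tr_skew_ten {m : ℕ} (w y : W.H (pw X m)) :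
    W.tr (pw X m) (derOp A m w * y) = -W.tr (pw X m) (w * derOp A m y) := by
  have hev := P.ev_of_kill hA
  -- it is enough to consider external products
  have h0 : ∀ (d d' : Fin (m + 1) → ℕ) (x x' : Fin (m + 1) → W.H X),
      (∀ i, x i ∈ W.gr X (d i)) → (∀ i, x' i ∈ W.gr X (d' i)) →
      W.tr (pw X m) (derOp A m (ten W X m x) * ten W X m x') =
        -W.tr (pw X m) (ten W X m x * derOp A m (ten W X m x')) := by
    intro d d' x x' hx hx'
    rw [derOp_ten, derOp_ten, Finset.sum_mul, Finset.mul_sum, map_sum, map_sum,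
      ← Finset.sum_neg_distrib]
    refine Finset.sum_congr rfl fun i _ => ?_
    have hu : ∀ (d : Fin (m + 1) → ℕ) (x : Fin (m + 1) → W.H X), (∀ i, x i ∈ W.gr X (d i)) →
        ∀ l, Function.update x i (A (x i)) l ∈ PH W X (d l) := by
      intro d x hx l
      by_cases hl : l = i
      · subst hl
        rw [Function.update_self]
        exact hev _ _ (PH.of (hx l))
      · rw [Function.update_of_ne hl]
        exact PH.of (hx l)
    rw [tr_ten' (hu d x hx) (fun l => PH.of (hx' l)),
      tr_ten' (fun l => PH.of (hx l)) (hu d' x' hx'), ← mul_neg]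
    congr 1
    rw [← Finset.mul_prod_erase Finset.univ _ (Finset.mem_univ i),
      ← Finset.mul_prod_erase Finset.univ (fun l => W.tr X (x l *
        Function.update x' i (A (x' i)) l)) (Finset.mem_univ i), Function.update_self,
      Function.update_self, P.tr_skew hA, neg_mul]
    congr 2
    refine Finset.prod_congr rfl fun l hl => ?_
    rw [Function.update_of_ne (Finset.ne_of_mem_erase hl),
      Function.update_of_ne (Finset.ne_of_mem_erase hl)]
  have h1 : ∀ (d' : Fin (m + 1) → ℕ) (x' : Fin (m + 1) → W.H X),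
      (∀ i, x' i ∈ W.gr X (d' i)) →
      W.tr (pw X m) ∘ₗ LinearMap.mulRight W.K (ten W X m x') ∘ₗ derOp A m =
        -(W.tr (pw X m) ∘ₗ LinearMap.mulRight W.K (derOp A m (ten W X m x'))) := by
    intro d' x' hx'
    apply pw_ext
    intro d x hx
    exact h0 d d' x x' hx hx'
  have h2 : W.tr (pw X m) ∘ₗ LinearMap.mulLeft W.K (derOp A m w) =
      -(W.tr (pw X m) ∘ₗ LinearMap.mulLeft W.K w ∘ₗ derOp A m) := by
    apply pw_ext
    intro d' x' hx'
    exact congrArg (fun f : W.H (pw X m) →ₗ[W.K] W.K => f w) (h1 d' x' hx')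
  exact congrArg (fun f : W.H (pw X m) →ₗ[W.K] W.K => f y) h2

/-- Operators which kill the classes of the system commute with the correspondences given by the
classes of the system. -/
theorem comm_corr {m n : ℕ} {φ : W.H (pw X m) →ₗ[W.K] W.H (pw X n)}
    (hφ : φ ∈ S.Op (pw X m) (pw X n)) (x : W.H (pw X m)) :
    derOp A n (φ x) = φ (derOp A m x) := by
  obtain ⟨z, hz, rfl⟩ := Sys.mem_Op.1 hφ
  -- the morphism to the power
  set e : (pw X m).prod (pw X n) ⟶ pw X (m + 1 + n) := tup (m + 1 + n)
    (Fin.append (fun i => fst (pw X m) (pw X n) ≫ Det.prj X m i)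
      (fun j => snd (pw X m) (pw X n) ≫ Det.prj X n j) :
        Fin (m + 1 + (n + 1)) → ((pw X m).prod (pw X n) ⟶ X)) with he
  have h1 : ∀ (x : Fin (m + 1) → W.H X) (y : Fin (n + 1) → W.H X),
      W.map e (ten W X (m + 1 + n) (Fin.append x y : Fin (m + 1 + (n + 1)) → W.H X)) =
        xp W (ten W X m x) (ten W X n y) := by
    intro x y
    rw [he, map_tup_ten, ← lp_eq_oprod]
    have h2 := lp_add (m := m + 1) (n := n + 1) (fun i : Fin (m + 1 + (n + 1)) =>
      W.map ((Fin.append (fun i => fst (pw X m) (pw X n) ≫ Det.prj X m i)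
        (fun j => snd (pw X m) (pw X n) ≫ Det.prj X n j) :
          Fin (m + 1 + (n + 1)) → ((pw X m).prod (pw X n) ⟶ X)) i)
        ((Fin.append x y : Fin (m + 1 + (n + 1)) → W.H X) i))
    refine h2.trans ?_
    simp only [Fin.append_left, Fin.append_right, W.map_comp]
    rw [← map_lp, ← map_lp, lp_eq_oprod, lp_eq_oprod, ← ten_eq_oprod, ← ten_eq_oprod]
    rfl
  set z' := W.push e z with hz'
  have hz'm : z' ∈ S.C _ := S.push e hz
  have h2 : ∀ (x : Fin (m + 1) → W.H X) (y : Fin (n + 1) → W.H X),
      W.tr (pw X n) (W.corr z (ten W X m x) * ten W X n y) =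
        W.tr _ (z' * ten W X (m + 1 + n) (Fin.append x y : Fin (m + 1 + (n + 1)) → W.H X)) := by
    intro x y
    rw [tr_corr_eq, ← h1, hz', W.tr_push]
  -- the invariance of the form
  have h3 : ∀ (x : Fin (m + 1) → W.H X) (y : Fin (n + 1) → W.H X),
      W.tr (pw X n) (W.corr z (derOp A m (ten W X m x)) * ten W X n y) +
        W.tr (pw X n) (W.corr z (ten W X m x) * derOp A n (ten W X n y)) = 0 := by
    intro x y
    have h4 := P.tr_skew_ten hA z'
      (ten W X (m + 1 + n) (Fin.append x y : Fin (m + 1 + (n + 1)) → W.H X))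
    rw [hA _ _ hz'm, zero_mul, map_zero] at h4
    have h5 : W.tr _ (z' * derOp A (m + 1 + n) (ten W X (m + 1 + n)
        (Fin.append x y : Fin (m + 1 + (n + 1)) → W.H X))) = 0 := neg_eq_zero.1 h4.symm
    rw [derOp_ten, Finset.mul_sum, map_sum] at h5
    have h6 := (Fin.sum_univ_add (a := m + 1) (b := n + 1) (fun i : Fin (m + 1 + (n + 1)) =>
      W.tr _ (z' * ten W X (m + 1 + n) (Function.update
        (Fin.append x y : Fin (m + 1 + (n + 1)) → W.H X) i
          (A ((Fin.append x y : Fin (m + 1 + (n + 1)) → W.H X) i)))))).symm.trans h5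
    rw [derOp_ten, derOp_ten, map_sum, Finset.sum_mul, map_sum, Finset.mul_sum, map_sum]
    refine Eq.trans ?_ h6
    congr 1
    · refine Finset.sum_congr rfl fun i _ => ?_
      rw [h2, Fin.append_left]
      congr 3
      funext l
      refine Fin.addCases (fun j => ?_) (fun j => ?_) l
      · rw [Fin.append_left]
        by_cases hj : j = i
        · subst hj; rw [Function.update_self, Function.update_self]
        · rw [Function.update_of_ne hj, Function.update_of_ne, Fin.append_left]
          intro h; exact hj (Fin.castAdd_injective _ _ h)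
      · rw [Fin.append_right, Function.update_of_ne, Fin.append_right]
        intro h
        have := congrArg Fin.val h
        simp at this
        omega
    · refine Finset.sum_congr rfl fun i _ => ?_
      rw [h2, Fin.append_right]
      congr 3
      funext l
      refine Fin.addCases (fun j => ?_) (fun j => ?_) l
      · rw [Fin.append_left, Function.update_of_ne, Fin.append_left]
        intro h
        have := congrArg Fin.val h
        simp at this
        omega
      · rw [Fin.append_right]
        by_cases hj : j = i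
        · subst hj; rw [Function.update_self, Function.update_self]
        · rw [Function.update_of_ne hj, Function.update_of_ne, Fin.append_right]
          intro h; exact hj (Fin.natAdd_injective _ _ h)
  have h4 : ∀ x : Fin (m + 1) → W.H X, derOp A n (W.corr z (ten W X m x)) =
      W.corr z (derOp A m (ten W X m x)) := by
    intro x
    apply W.tr_ext
    intro c
    have h5 : W.tr (pw X n) ∘ₗ LinearMap.mulLeft W.K (derOp A n (W.corr z (ten W X m x))) =
        W.tr (pw X n) ∘ₗ LinearMap.mulLeft W.K (W.corr z (derOp A m (ten W X m x))) := by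
      apply pw_ext
      intro d y _
      change W.tr (pw X n) (derOp A n (W.corr z (ten W X m x)) * ten W X n y) =
        W.tr (pw X n) (W.corr z (derOp A m (ten W X m x)) * ten W X n y)
      rw [P.tr_skew_ten hA]
      exact (eq_neg_of_add_eq_zero_left (h3 x y)).symm
    exact congrArg (fun f : W.H (pw X n) →ₗ[W.K] W.K => f c) h5
  have h5 : derOp A n ∘ₗ W.corr z = W.corr z ∘ₗ derOp A m := by
    apply pw_ext
    intro d x _
    exact h4 x
  exact congrArg (fun f : W.H (pw X m) →ₗ[W.K] W.H (pw X n) => f x) h5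

end NDat

lemma Cs_tpow' {S : Sys W} {n : ℕ} {v : Module.Basis (Fin n) W.K (W.H X)} {m : ℕ}
    {F : (Fin m → Fin n) → W.K} (hF : F ∈ Cs S v m) : ∀ k, tpow F k ∈ Cs S v (len m k)
  | 0 => mem_Cs_zero _
  | k + 1 => Cs_tens (Cs_tpow' hF k) hF

/-- **Finite generation implies the infinitesimal criterion.** -/
theorem kill_of_generated' [CharZero W.K] {Q R : ClassPred W} (P : NDat W Q.sys X) {N : ℕ∞}
    (hgen : GeneratedOver W Q.P R.P X N) {A : Module.End W.K (W.H X)}
    (hA : ∀ m, ∀ c ∈ Q.sys.C (pw X m), derOp A m c = 0) :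
    ∀ m, ∀ c ∈ R.sys.C (pw X m), derOp A m c = 0 := by
  classical
  obtain ⟨n, v, d, hd⟩ := exists_homog_basis W X
  obtain ⟨r, c, -, -, hg⟩ := hgen
  set Ci : ∀ i : Fin r, (Fin ((c i).1 + 1) → Fin n) → W.K := fun i =>
    (PPe v (c i).1).symm (c i).2 with hCi
  have hCi' : ∀ i, PP v (Det.prj X (c i).1) (Ci i) = (c i).2 := fun i =>
    (PPe v (c i).1).apply_symm_apply _
  set f : Option (Σ i : Fin r, (Fin ((c i).1 + 1) → Fin n)) → PowerSeries W.K := fun o =>
    match o with
    | none => 1
    | some p => gs ((c p.1).1 + 1) (mt v A) (Ci p.1) p.2 with hf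
  set Φ : Submodule W.K (PowerSeries W.K) := Submodule.span W.K (Set.range f) with hΦ
  have hfin : Module.Finite W.K Φ := FiniteDimensional.span_of_finite W.K (Set.finite_range f)
  have h1Φ : (1 : PowerSeries W.K) ∈ Φ := Submodule.subset_span ⟨none, rfl⟩
  have hCΦ : ∀ i J, gs ((c i).1 + 1) (mt v A) (Ci i) J ∈ Φ := fun i J =>
    Submodule.subset_span ⟨some ⟨i, J⟩, rfl⟩
  -- the exponentials of Hodge classes
  have key : ∀ l, ∀ F ∈ Cs R.sys v l, ∀ I, gs l (mt v A) F I ∈ Φ := by
    intro l F hF I
    cases l with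
    | zero =>
      have h1 : (dM 0 (mt v A)).mulVec F = 0 := by
        funext I
        simp [dM_mulVec]
      rw [gs_of_kill h1]
      exact Submodule.smul_mem _ _ h1Φ
    | succ m =>
      have h1 := mem_Cs_succ.1 hF
      have h2 : ∀ y ∈ R.sys.C (pw X m), ∀ G, PP v (Det.prj X m) G = y →
          ∀ I, gs (m + 1) (mt v A) G I ∈ Φ := by
        intro y hy
        have h3 : y ∈ genOver W Q.P X c m := by
          refine ClassPred.sp_ind (Q := R) (q := fun y => y ∈ genOver W Q.P X c m)
            ?_ ?_ ?_ hy
          · intro j x hx; exact hg m j x hx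
          · exact Submodule.zero_mem _
          · intro a b ha hb; exact Submodule.add_mem _ ha hb
        clear hy
        induction h3 using Submodule.span_induction with
        | mem y hy =>
          intro G hG I
          rcases hy with ⟨j, hj⟩ | hy
          · have h4 : derOp A m y = 0 := hA m y (ClassPred.sp_of (Q := Q) hj)
            have h5 : (dM (m + 1) (mt v A)).mulVec G = 0 := by
              rw [← hG, derOp_PP] at h4
              exact PP_inj v (h4.trans (PP_zero _).symm)
            rw [gs_of_kill h5]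
            exact Submodule.smul_mem _ _ h1Φ
          · obtain ⟨i, hi⟩ := Set.mem_iUnion.1 hy
            obtain ⟨j, z, hz, hzy⟩ := hi
            have hφ : W.corr z ∈ Q.sys.Op (pw X (c i).1) (pw X m) :=
              Sys.Op.corr (ClassPred.sp_of (Q := Q) hz)
            have h4 : G = (mtP v (W.corr z)).mulVec (Ci i) := by
              apply PP_inj v
              rw [hG, mtP_spec, hCi']
              exact hzy.symm
            rw [h4, gs_comm (mtP_comm v (P.comm_corr hA hφ))]
            exact Submodule.sum_mem _ fun J _ => Submodule.smul_mem _ _ (hCΦ i J)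
        | zero =>
          intro G hG I
          have h4 : G = 0 := PP_inj v (hG.trans (PP_zero _).symm)
          rw [h4, gs_zero]
          exact Submodule.zero_mem _
        | add x y _ _ hx hy =>
          intro G hG I
          obtain ⟨G1, hG1⟩ := PP_surj v x
          obtain ⟨G2, hG2⟩ := PP_surj v y
          have h4 : G = G1 + G2 := by
            apply PP_inj v
            rw [hG, PP_add, hG1, hG2]
          rw [h4, gs_add]
          exact Submodule.add_mem _ (hx G1 hG1 I) (hy G2 hG2 I)
        | smul a x _ hx =>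
          intro G hG I
          obtain ⟨G1, hG1⟩ := PP_surj v x
          have h4 : G = a • G1 := by
            apply PP_inj v
            rw [hG, PP_smul, hG1]
          rw [h4, gs_smul]
          exact Submodule.smul_mem _ _ (hx G1 hG1 I)
      exact h2 _ h1 F rfl I
  intro m y hy
  obtain ⟨F, rfl⟩ := PP_surj v y
  have hF : F ∈ Cs R.sys v (m + 1) := mem_Cs_succ.2 hy
  have h1 : (dM (m + 1) (mt v A)).mulVec F = 0 := by
    apply kill_of_const
    intro I
    apply const_of_pow (Φ := Φ)
    intro k
    rw [← gs_tpow]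
    exact key _ _ (Cs_tpow' hF k) _
  rw [derOp_PP, h1, PP_zero]

end Pool.Agent.Q67.TG
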