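import Pool.Agent.Q67.TG.Prod

/-!
# Operators on the factors and permutations
-/

set_option autoImplicit false
set_option linter.unusedSectionVars false

open CategoryTheory AlgebraicGeometry

universe u v

namespace Pool.Agent.Q67.TG

open Pool.Agent.H914 Pool.Agent.H914.VarClass Pool.Agent.H914.VarClass.Obj
  Pool.Agent.H914.WeilCohomology Pool.Agent.Y133.Half
open Pool.Agent.Q67.Det Pool.Agent.Q67.TK

variable {k : Type u} [Field k] {𝒱 : VarClass k} {ops : CycleOps 𝒱}
  {W : WeilCohomology.{u, v} ops} {X Y Z Z' : 𝒱.Obj}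

/-- The external product of operators. -/
noncomputable def famOp (W : WeilCohomology.{u, v} ops) (X : 𝒱.Obj) :
    ∀ m : ℕ, (Fin (m + 1) → Module.End W.K (W.H X)) → Module.End W.K (W.H (pw X m))
  | 0, φ => φ 0
  | m + 1, φ => extOp W (famOp W X m (Fin.init φ)) (φ (Fin.last (m + 1)))

lemma famOp_ten : ∀ {m : ℕ} (φ : Fin (m + 1) → Module.End W.K (W.H X))
    (x : Fin (m + 1) → W.H X), famOp W X m φ (ten W X m x) = ten W X m (fun i => φ i (x i))
  | 0, _, _ => rfl
  | m + 1, φ, x => by
    change extOp W (famOp W X m (Fin.init φ)) (φ (Fin.last (m + 1)))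
      (W.map (fst (pw X m) X) (ten W X m (Fin.init x)) * W.map (snd (pw X m) X)
        (x (Fin.last (m + 1)))) = _
    rw [extOp_tmul, famOp_ten]
    rfl

lemma famOp_mem (S : Sys W) : ∀ {m : ℕ} {φ : Fin (m + 1) → Module.End W.K (W.H X)},
    (∀ i, φ i ∈ S.Op X X) → famOp W X m φ ∈ S.Op (pw X m) (pw X m)
  | 0, _, h => h 0
  | _ + 1, _, h => Sys.Op.ext (famOp_mem S fun _ => h _) (h _)

section Mat

variable {B : Type} [Fintype B] [DecidableEq B] (v : Module.Basis B W.K (W.H X))

/-- The matrix of an operator. -/
noncomputable def mt (φ : Module.End W.K (W.H X)) : Matrix B B W.K := LinearMap.toMatrix v v φ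

lemma mt_spec (φ : Module.End W.K (W.H X)) (b : B) : φ (v b) = ∑ a, mt v φ a b • v a := by
  conv_lhs => rw [← v.sum_repr (φ (v b))]
  refine Finset.sum_congr rfl fun a _ => ?_
  rw [mt, LinearMap.toMatrix_apply]

lemma mt_unique {φ : Module.End W.K (W.H X)} {M : Matrix B B W.K}
    (h : ∀ b, φ (v b) = ∑ a, M a b • v a) : mt v φ = M := by
  ext a b
  rw [mt, LinearMap.toMatrix_apply, h, map_sum, Finset.sum_apply']
  simp [Finsupp.single_apply]

lemma famOp_PP {m : ℕ} (φ : Fin (m + 1) → Module.End W.K (W.H X))
    (F : (Fin (m + 1) → B) → W.K) :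
    famOp W X m φ (PP v (prj X m) F) =
      PP v (prj X m) ((gM fun i => mt v (φ i)).mulVec F) := by
  rw [PP_prj, PP_prj, map_sum]
  have h1 : ∀ I : Fin (m + 1) → B, famOp W X m φ (F I • ten W X m (fun k => v (I k))) =
      ∑ J, (gM (fun i => mt v (φ i)) J I * F I) • ten W X m (fun k => v (J k)) := by
    intro I
    rw [map_smul, famOp_ten]
    have h2 : (fun i => φ i (v (I i))) = fun i => ∑ a, mt v (φ i) a (I i) • v a :=
      funext fun i => mt_spec v (φ i) (I i)
    rw [h2, ← tenM_apply, MultilinearMap.map_sum, Finset.smul_sum]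
    refine Finset.sum_congr rfl fun J _ => ?_
    rw [MultilinearMap.map_smul_univ, smul_smul, mul_comm (F I)]
    rfl
  simp only [h1]
  rw [Finset.sum_comm]
  refine Finset.sum_congr rfl fun J _ => ?_
  rw [← Finset.sum_smul]
  rfl

variable {v} {S : Sys W}

lemma Cs_gM {n : ℕ} {φ : Fin n → Module.End W.K (W.H X)} (hφ : ∀ i, φ i ∈ S.Op X X)
    {F : (Fin n → B) → W.K} (hF : F ∈ Cs S v n) :
    (gM fun i => mt v (φ i)).mulVec F ∈ Cs S v n := by
  cases n with
  | zero => exact mem_Cs_zero _
  | succ m =>
    rw [mem_Cs_succ, ← famOp_PP]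
    exact Sys.Op.apply (S := S) (T := S) (fun _ => le_rfl) (famOp_mem S hφ) (mem_Cs_succ.1 hF)

end Mat

/-! ### Permutations -/

section Perm

variable {K A : Type*} [Field K] [Ring A] [Algebra K A]

lemma oprod_adj' {ε : K} : ∀ {m : ℕ} {y : Fin (m + 1) → A} (i : Fin m),
    y i.succ * y i.castSucc = ε • (y i.castSucc * y i.succ) →
    oprod m (y ∘ Equiv.swap i.castSucc i.succ) = ε • oprod m y := by
  intro m
  induction m with
  | zero => intro y i _; exact i.elim0
  | succ m ih =>
    intro y i
    refine Fin.lastCases ?_ ?_ i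
    · intro hy
      cases m with
      | zero =>
        have h1 : y ∘ Equiv.swap (Fin.last 0).castSucc (Fin.last 0).succ = ![y 1, y 0] := by
          funext j
          fin_cases j
          · simp
          · simp
        rw [h1]
        change y 1 * y 0 = ε • (y 0 * y 1)
        exact hy
      | succ m =>
        have e1 : (y ∘ Equiv.swap (Fin.last (m + 1)).castSucc (Fin.last (m + 1)).succ)
            (Fin.last (m + 2)) = y (Fin.last (m + 1)).castSucc := by
          simp [Function.comp, ← Fin.succ_last]
        have e2 : Fin.init (y ∘ Equiv.swap (Fin.last (m + 1)).castSucc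
            (Fin.last (m + 1)).succ) (Fin.last (m + 1)) = y (Fin.last (m + 2)) := by
          simp [Fin.init, Function.comp, ← Fin.succ_last]
        have e3 : Fin.init (Fin.init (y ∘ Equiv.swap (Fin.last (m + 1)).castSucc
            (Fin.last (m + 1)).succ)) = Fin.init (Fin.init y) := by
          funext j
          simp only [Fin.init, Function.comp]
          congr 1
          apply Equiv.swap_apply_of_ne_of_ne
          · intro h
            have := congrArg Fin.val h
            simp at this
            omega
          · intro h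
            have := congrArg Fin.val h
            simp at this
            omega
        have e4 : ∀ z : Fin (m + 3) → A, oprod (m + 2) z =
            (oprod m (Fin.init (Fin.init z)) * Fin.init z (Fin.last (m + 1))) *
              z (Fin.last (m + 2)) := fun _ => rfl
        change oprod (m + 2) _ = ε • oprod (m + 2) y
        rw [e4, e4 y, e1, e2, e3, mul_assoc, mul_assoc]
        have h : y (Fin.last (m + 2)) * y (Fin.last (m + 1)).castSucc =
            ε • (y (Fin.last (m + 1)).castSucc * y (Fin.last (m + 2))) := hy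
        rw [h, mul_smul_comm]
        rfl
    · intro j hy
      have e1 : (y ∘ Equiv.swap (j.castSucc).castSucc (j.castSucc).succ) (Fin.last (m + 1)) =
          y (Fin.last (m + 1)) := by
        simp only [Function.comp]
        congr 1
        apply Equiv.swap_apply_of_ne_of_ne
        · intro h
          have := congrArg Fin.val h
          simp at this
          omega
        · intro h
          have := congrArg Fin.val h
          simp at this
          omega
      have e2 : Fin.init (y ∘ Equiv.swap (j.castSucc).castSucc (j.castSucc).succ) =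
          Fin.init y ∘ Equiv.swap j.castSucc j.succ := by
        funext l
        simp only [Fin.init, Function.comp]
        congr 1
        rw [Fin.succ_castSucc]
        by_cases h1 : l = j.castSucc
        · subst h1; simp
        · by_cases h2 : l = j.succ
          · subst h2; simp
          · rw [Equiv.swap_apply_of_ne_of_ne h1 h2, Equiv.swap_apply_of_ne_of_ne]
            · intro h; exact h1 (Fin.castSucc_injective _ h)
            · intro h; exact h2 (Fin.castSucc_injective _ h)
      have e4 : ∀ z : Fin (m + 2) → A, oprod (m + 1) z =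
            oprod m (Fin.init z) * z (Fin.last (m + 1)) := fun _ => rfl
      rw [e4, e4 y, e1, e2, ih (y := Fin.init y) j hy, smul_mul_assoc]

end Perm

section CsPerm

variable {B : Type} [Fintype B] [DecidableEq B] {v : Module.Basis B W.K (W.H X)} {S : Sys W}

/-- the sign of the exchange of two basis elements -/
def es (K : Type*) [Field K] (d : B → ℕ) (a b : B) : K := (-1 : K) ^ (d a * d b)

lemma PP_swap {d : B → ℕ} (hd : ∀ b, v b ∈ W.gr X (d b)) {m : ℕ} (i : Fin m)
    (f : Fin (m + 1) → (Z ⟶ X)) (F : (Fin (m + 1) → B) → W.K) :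
    PP v f (fun I => F (I ∘ Equiv.swap i.castSucc i.succ)) =
      PP v (f ∘ Equiv.swap i.castSucc i.succ)
        (fun I => es W.K d (I i.castSucc) (I i.succ) * F I) := by
  set τ := Equiv.swap i.castSucc i.succ with hτ
  have hττ : ∀ j, τ (τ j) = j := fun j => Equiv.swap_apply_self _ _ _
  rw [PP_def, PP_def]
  refine Fintype.sum_equiv (Equiv.arrowCongr τ (Equiv.refl B)) _ _ fun I => ?_
  have h1 : (Equiv.arrowCongr τ (Equiv.refl B)) I = I ∘ τ := by
    funext j
    simp [Equiv.arrowCongr, hτ]
  rw [h1]
  have e1 : (I ∘ τ) i.castSucc = I i.succ := by simp [hτ]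
  have e2 : (I ∘ τ) i.succ = I i.castSucc := by simp [hτ]
  rw [e1, e2, mul_comm, mul_smul]
  congr 1
  rw [lp_eq_oprod, lp_eq_oprod]
  have h2 := oprod_adj' (K := W.K) (A := W.H Z)
    (ε := es W.K d (I i.castSucc) (I i.succ))
    (y := fun k => W.map (f k) (v (I k))) i (by
      have h3 := PH.comm (W := W) (PH.map (f i.succ) (PH.of (hd (I i.succ))))
        (PH.map (f i.castSucc) (PH.of (hd (I i.castSucc))))
      rw [h3, es, mul_comm (d (I i.succ))])
  have h4 : (fun k => W.map ((f ∘ τ) k) (v ((I ∘ τ) k))) =
      (fun k => W.map (f k) (v (I k))) ∘ τ := rfl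
  rw [h4, h2, smul_smul, es, es, mul_comm (d (I i.succ)), ← pow_add, ← two_mul, pow_mul]
  simp

/-- the matrix of the projector to the odd part -/
def pd (K : Type*) [Field K] (d : B → ℕ) : Matrix B B K :=
  Matrix.diagonal fun b => if d b % 2 = 1 then 1 else 0

lemma es_mul (K : Type*) [Field K] (d : B → ℕ) {m : ℕ} (i : Fin m) (F : (Fin (m + 1) → B) → K) :
    (fun I => es K d (I i.castSucc) (I i.succ) * F I) =
      F - (2 : K) • (gM (Function.update (Function.update (fun _ => 1) i.castSucc (pd K d))
        i.succ (pd K d))).mulVec F := by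
  have hne : i.castSucc ≠ i.succ := (Fin.castSucc_lt_succ (i := i)).ne
  have h1 : gM (Function.update (Function.update (fun _ => 1) i.castSucc (pd K d))
      i.succ (pd K d)) = Matrix.diagonal fun I : Fin (m + 1) → B =>
        (if d (I i.castSucc) % 2 = 1 ∧ d (I i.succ) % 2 = 1 then (1 : K) else 0) := by
    have h2 : (Function.update (Function.update (fun _ => (1 : Matrix B B K)) i.castSucc (pd K d))
      i.succ (pd K d)) = fun k => Matrix.diagonal fun b =>
        (if (k = i.castSucc ∨ k = i.succ) ∧ d b % 2 ≠ 1 then (0 : K) else 1) := by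
      funext k
      by_cases hk : k = i.succ
      · subst hk
        rw [Function.update_self, pd]
        congr 1
        funext b
        by_cases hb : d b % 2 = 1 <;> simp [hb]
      · rw [Function.update_of_ne hk]
        by_cases hk' : k = i.castSucc
        · subst hk'
          rw [Function.update_self, pd]
          congr 1
          funext b
          by_cases hb : d b % 2 = 1 <;> simp [hb]
        · rw [Function.update_of_ne hk']
          simp [hk, hk']
    rw [h2]
    ext I J
    rw [gM, Matrix.diagonal_apply]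
    by_cases hIJ : I = J
    · subst hIJ
      rw [if_pos rfl]
      simp only [Matrix.diagonal_apply_eq]
      by_cases hc : d (I i.castSucc) % 2 = 1 ∧ d (I i.succ) % 2 = 1
      · rw [if_pos hc]
        refine Finset.prod_eq_one fun k _ => ?_
        rw [if_neg]
        rintro ⟨hk | hk, h⟩
        · subst hk; exact h hc.1
        · subst hk; exact h hc.2
      · rw [if_neg hc]
        by_cases h5 : d (I i.castSucc) % 2 = 1
        · have h6 : ¬ d (I i.succ) % 2 = 1 := fun h => hc ⟨h5, h⟩
          refine Finset.prod_eq_zero (Finset.mem_univ i.succ) ?_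
          rw [if_pos ⟨Or.inr rfl, h6⟩]
        · refine Finset.prod_eq_zero (Finset.mem_univ i.castSucc) ?_
          rw [if_pos ⟨Or.inl rfl, h5⟩]
    · rw [if_neg hIJ]
      obtain ⟨k, hk⟩ := Function.ne_iff.1 hIJ
      refine Finset.prod_eq_zero (Finset.mem_univ k) ?_
      rw [Matrix.diagonal_apply_ne _ hk]
  rw [h1]
  funext I
  rw [Pi.sub_apply, Pi.smul_apply, Matrix.mulVec_diagonal, es, smul_eq_mul]
  by_cases hc : d (I i.castSucc) % 2 = 1 ∧ d (I i.succ) % 2 = 1
  · rw [if_pos hc]
    have : Odd (d (I i.castSucc) * d (I i.succ)) :=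
      Nat.odd_mul.2 ⟨Nat.odd_iff.2 hc.1, Nat.odd_iff.2 hc.2⟩
    rw [this.neg_one_pow]
    ring
  · rw [if_neg hc]
    have : Even (d (I i.castSucc) * d (I i.succ)) := by
      rw [← Nat.not_odd_iff_even, Nat.odd_mul, Nat.odd_iff, Nat.odd_iff]
      exact hc
    rw [this.neg_one_pow]
    ring

/-- The operator which is the projector to the odd part of the cohomology. -/
noncomputable def oddP (W : WeilCohomology.{u, v} ops) (X : 𝒱.Obj) : Module.End W.K (W.H X) :=
  (2 : W.K)⁻¹ • (1 - par (W.isInternal X))

lemma oddP_apply {i : ℕ} {x : W.H X} (hx : x ∈ PH W X i) [CharZero W.K] :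
    oddP W X x = if i % 2 = 1 then x else 0 := by
  rw [oddP, LinearMap.smul_apply, LinearMap.sub_apply, PH.par hx, Module.End.one_apply]
  split_ifs with h
  · rw [Odd.neg_one_pow (Nat.odd_iff.2 h), neg_one_smul, sub_neg_eq_add, ← two_smul W.K x,
      smul_smul, inv_mul_cancel₀ two_ne_zero, one_smul]
  · rw [Even.neg_one_pow (Nat.even_iff.2 (by omega)), one_smul, sub_self, smul_zero]

lemma mt_oddP [CharZero W.K] {d : B → ℕ} (hd : ∀ b, v b ∈ W.gr X (d b)) :
    mt v (oddP W X) = pd W.K d := by
  refine mt_unique v fun b => ?_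
  rw [oddP_apply (PH.of (hd b))]
  simp only [pd, Matrix.diagonal_apply, ite_smul, zero_smul, Finset.sum_ite_eq',
    Finset.mem_univ, if_true]
  split_ifs <;> simp

lemma mt_one : mt v (1 : Module.End W.K (W.H X)) = 1 := LinearMap.toMatrix_one v

lemma Cs_es [CharZero W.K] {d : B → ℕ} (hd : ∀ b, v b ∈ W.gr X (d b))
    (hp : oddP W X ∈ S.Op X X) {m : ℕ} (i : Fin m) {F : (Fin (m + 1) → B) → W.K}
    (hF : F ∈ Cs S v (m + 1)) :
    (fun I => es W.K d (I i.castSucc) (I i.succ) * F I) ∈ Cs S v (m + 1) := by
  rw [es_mul]
  refine Submodule.sub_mem _ hF (Submodule.smul_mem _ _ ?_)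
  have h1 : (Function.update (Function.update (fun _ => (1 : Matrix B B W.K)) i.castSucc
      (pd W.K d)) i.succ (pd W.K d)) = fun k => mt v (Function.update (Function.update
        (fun _ => (1 : Module.End W.K (W.H X))) i.castSucc (oddP W X)) i.succ (oddP W X) k) := by
    funext k
    by_cases hk : k = i.succ
    · subst hk
      rw [Function.update_self, Function.update_self, mt_oddP hd]
    · rw [Function.update_of_ne hk, Function.update_of_ne hk]
      by_cases hk' : k = i.castSucc
      · subst hk'
        rw [Function.update_self, Function.update_self, mt_oddP hd]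
      · rw [Function.update_of_ne hk', Function.update_of_ne hk', mt_one]
  rw [h1]
  refine Cs_gM (fun k => ?_) hF
  by_cases hk : k = i.succ
  · subst hk
    rw [Function.update_self]; exact hp
  · rw [Function.update_of_ne hk]
    by_cases hk' : k = i.castSucc
    · subst hk'
      rw [Function.update_self]; exact hp
    · rw [Function.update_of_ne hk']; exact Sys.Op.id

/-- The tensors which define classes of the system are stable under permutations. -/
theorem Cs_perm [CharZero W.K] {d : B → ℕ} (hd : ∀ b, v b ∈ W.gr X (d b))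
    (hp : oddP W X ∈ S.Op X X) {n : ℕ} (σ : Equiv.Perm (Fin n)) {F : (Fin n → B) → W.K}
    (hF : F ∈ Cs S v n) : (fun I => F (I ∘ σ)) ∈ Cs S v n := by
  cases n with
  | zero => exact mem_Cs_zero _
  | succ m =>
    have hσ : σ ∈ Submonoid.closure
        (Set.range fun i : Fin m => Equiv.swap i.castSucc i.succ) := by
      rw [Equiv.Perm.mclosure_swap_castSucc_succ]
      trivial
    revert F
    induction hσ using Submonoid.closure_induction with
    | mem σ hσ =>
      obtain ⟨i, rfl⟩ := hσ
      intro F hF Z f
      change PP v f (fun I => F (I ∘ Equiv.swap i.castSucc i.succ)) ∈ _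
      rw [PP_swap hd]
      exact Cs_es hd hp i hF _ _
    | one => intro F hF; exact hF
    | mul σ τ _ _ hσ hτ =>
      intro F hF
      exact hσ (hτ hF)

end CsPerm

end Pool.Agent.Q67.TG
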