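import Pool.Agent.Q67.TK.Transport
import Pool.Agent.Q67.Det.Core

/-!
# Tensors and classes on the powers of a variety
-/

set_option autoImplicit false
set_option linter.unusedSectionVars false

open CategoryTheory AlgebraicGeometry

universe u v

namespace Pool.Agent.Q67.TG

open Pool.Agent.H914 Pool.Agent.H914.VarClass Pool.Agent.H914.VarClass.Obj
  Pool.Agent.H914.WeilCohomology Pool.Agent.Y133.Half
open Pool.Agent.Q67.Det Pool.Agent.Q67.TK

/-- ordered products -/
def lp {A : Type*} [Monoid A] (n : ℕ) (y : Fin n → A) : A := (List.ofFn y).prod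

lemma lp_zero {A : Type*} [Monoid A] (y : Fin 0 → A) : lp 0 y = 1 := by simp [lp]

lemma lp_succ {A : Type*} [Monoid A] {n : ℕ} (y : Fin (n + 1) → A) :
    lp (n + 1) y = lp n (Fin.init y) * y (Fin.last n) := by
  simp only [lp]
  rw [List.ofFn_succ']
  simp only [List.concat_eq_append, List.prod_append, List.prod_singleton]
  rfl

lemma lp_eq_oprod {A : Type*} [Monoid A] : ∀ {m : ℕ} (y : Fin (m + 1) → A),
    lp (m + 1) y = oprod m y
  | 0, y => by rw [lp_succ, lp_zero, one_mul]; rfl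
  | m + 1, y => by rw [lp_succ, lp_eq_oprod]; rfl

lemma lp_add {A : Type*} [Monoid A] {m n : ℕ} (y : Fin (m + n) → A) :
    lp (m + n) y = lp m (fun k => y (Fin.castAdd n k)) * lp n (fun k => y (Fin.natAdd m k)) := by
  induction n with
  | zero =>
    rw [lp_zero, mul_one]
    rfl
  | succ n ih =>
    have h1 : lp (m + (n + 1)) y = lp (m + n) (Fin.init (n := m + n) y) * y (Fin.last (m + n)) :=
      lp_succ (n := m + n) y
    rw [h1, ih, lp_succ, ← mul_assoc]
    rfl

lemma map_lp {A A' : Type*} [Monoid A] [Monoid A'] {F : Type*} [FunLike F A A']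
    [MonoidHomClass F A A'] (g : F) : ∀ {n : ℕ} (y : Fin n → A), g (lp n y) = lp n (fun k => g (y k))
  | 0, y => by rw [lp_zero, lp_zero, map_one]
  | n + 1, y => by rw [lp_succ, lp_succ, map_mul, map_lp g]; rfl

lemma lp_cast {A : Type*} [Monoid A] {m n : ℕ} (h : m = n) (y : Fin n → A) :
    lp m (fun k => y (Fin.cast h k)) = lp n y := by
  subst h; rfl

variable {k : Type u} [Field k] {𝒱 : VarClass k} {ops : CycleOps 𝒱}
  {W : WeilCohomology.{u, v} ops} {X Y Z Z' : 𝒱.Obj}

section PP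

variable {B : Type} [Fintype B] [DecidableEq B]

/-- The class given by a tensor and a tuple of morphisms. -/
noncomputable def PP (v : B → W.H X) {n : ℕ} (f : Fin n → (Z ⟶ X)) (F : (Fin n → B) → W.K) :
    W.H Z :=
  ∑ I, F I • lp n (fun k => W.map (f k) (v (I k)))

variable {v : B → W.H X} {n : ℕ}

lemma PP_def (f : Fin n → (Z ⟶ X)) (F : (Fin n → B) → W.K) :
    PP v f F = ∑ I, F I • lp n (fun k => W.map (f k) (v (I k))) := rfl

lemma PP_add (f : Fin n → (Z ⟶ X)) (F G : (Fin n → B) → W.K) :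
    PP v f (F + G) = PP v f F + PP v f G := by
  simp only [PP_def, Pi.add_apply, add_smul, Finset.sum_add_distrib]

lemma PP_zero (f : Fin n → (Z ⟶ X)) : PP v f 0 = 0 := by
  simp only [PP_def, Pi.zero_apply, zero_smul, Finset.sum_const_zero]

lemma PP_smul (f : Fin n → (Z ⟶ X)) (c : W.K) (F : (Fin n → B) → W.K) :
    PP v f (c • F) = c • PP v f F := by
  simp only [PP_def, Pi.smul_apply, smul_eq_mul, mul_smul, Finset.smul_sum]

lemma map_PP (g : Z' ⟶ Z) (f : Fin n → (Z ⟶ X)) (F : (Fin n → B) → W.K) :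
    W.map g (PP v f F) = PP v (fun k => g ≫ f k) F := by
  simp only [PP_def, map_sum, map_smul]
  refine Finset.sum_congr rfl fun I _ => ?_
  rw [map_lp]
  simp only [← W.map_comp]

lemma PP_tp {m n : ℕ} (f : Fin (m + n) → (Z ⟶ X)) (F : (Fin m → B) → W.K)
    (G : (Fin n → B) → W.K) : PP v f (tp F G) =
      PP v (fun k => f (Fin.castAdd n k)) F * PP v (fun k => f (Fin.natAdd m k)) G := by
  rw [PP_def, sum_append, PP_def, PP_def, Finset.sum_mul_sum]
  refine Finset.sum_congr rfl fun I _ => Finset.sum_congr rfl fun J _ => ?_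
  rw [tp_append, lp_add, smul_mul_smul_comm]
  simp only [Fin.append_left, Fin.append_right]

lemma PP_prj {m : ℕ} (F : (Fin (m + 1) → B) → W.K) :
    PP v (prj X m) F = ∑ I, F I • ten W X m (fun k => v (I k)) := by
  rw [PP_def]
  refine Finset.sum_congr rfl fun I _ => ?_
  rw [ten_eq_oprod, lp_eq_oprod]

lemma prj_last (m : ℕ) : prj X (m + 1) (Fin.last (m + 1)) =
    (show pw X (m + 1) ⟶ X from snd (pw X m) X) :=
  Fin.lastCases_last (motive := fun _ => (pw X (m + 1) ⟶ X))

lemma prj_castSucc (m : ℕ) (i : Fin (m + 1)) : prj X (m + 1) i.castSucc =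
    (show pw X (m + 1) ⟶ X from fst (pw X m) X ≫ prj X m i) :=
  Fin.lastCases_castSucc (motive := fun _ => (pw X (m + 1) ⟶ X)) _

lemma tup_prj : ∀ {m : ℕ} (f : Fin (m + 1) → (Z ⟶ X)) (i : Fin (m + 1)),
    tup m f ≫ prj X m i = f i
  | 0, f, i => by
    obtain rfl : i = 0 := by omega
    change f 0 ≫ 𝟙 X = f 0
    rw [Category.comp_id]
  | m + 1, f, i => by
    refine Fin.lastCases ?_ ?_ i
    · rw [prj_last]
      exact Obj.lift_snd (tup m (Fin.init f)) (f (Fin.last (m + 1)))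
    · intro j
      rw [prj_castSucc]
      have h1 : Obj.lift (tup m (Fin.init f)) (f (Fin.last (m + 1))) ≫
          (fst (pw X m) X ≫ prj X m j) = tup m (Fin.init f) ≫ prj X m j :=
        Obj.lift_fst_assoc _ _ _
      exact h1.trans (tup_prj (Fin.init f) j)

lemma PP_tup {m : ℕ} (f : Fin (m + 1) → (Z ⟶ X)) (F : (Fin (m + 1) → B) → W.K) :
    PP v f F = W.map (tup m f) (PP v (prj X m) F) := by
  rw [map_PP]
  congr 1
  funext k
  rw [tup_prj]

end PP

section Cs

variable {B : Type} [Fintype B] [DecidableEq B]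

/-- The tensors which define classes of the system. -/
def Cs (S : Sys W) (v : B → W.H X) (n : ℕ) : Submodule W.K ((Fin n → B) → W.K) where
  carrier := {F | ∀ (Z : 𝒱.Obj) (f : Fin n → (Z ⟶ X)), PP v f F ∈ S.C Z}
  add_mem' := fun {F G} hF hG Z f => by
    rw [PP_add]; exact Submodule.add_mem _ (hF Z f) (hG Z f)
  zero_mem' := fun Z f => by rw [PP_zero]; exact Submodule.zero_mem _
  smul_mem' := fun c F hF Z f => by rw [PP_smul]; exact Submodule.smul_mem _ _ (hF Z f)

variable {S : Sys W} {v : B → W.H X}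

lemma mem_Cs {n : ℕ} {F : (Fin n → B) → W.K} :
    F ∈ Cs S v n ↔ ∀ (Z : 𝒱.Obj) (f : Fin n → (Z ⟶ X)), PP v f F ∈ S.C Z := Iff.rfl

lemma mem_Cs_zero (F : (Fin 0 → B) → W.K) : F ∈ Cs S v 0 := by
  intro Z f
  rw [PP_def]
  refine Submodule.sum_mem _ fun I _ => ?_
  rw [lp_zero]
  exact Submodule.smul_mem _ _ (S.one Z)

lemma mem_Cs_succ {m : ℕ} {F : (Fin (m + 1) → B) → W.K} :
    F ∈ Cs S v (m + 1) ↔ PP v (prj X m) F ∈ S.C (pw X m) := by
  constructor
  · intro h; exact h _ _
  · intro h Z f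
    rw [PP_tup]
    exact S.map _ h

lemma Cs_tens {m n : ℕ} {F : (Fin m → B) → W.K} {G : (Fin n → B) → W.K} (hF : F ∈ Cs S v m)
    (hG : G ∈ Cs S v n) : tp F G ∈ Cs S v (m + n) := by
  intro Z f
  rw [PP_tp]
  exact S.mul (hF _ _) (hG _ _)

end Cs

end Pool.Agent.Q67.TG
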